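import Mathlib

set_option autoImplicit false

namespace H327R3

/-- If every character of an abelian normal subgroup `K` is fixed by some element outside `K`,
then irreducible representations have dimension at most half of the index of `K`. -/
theorem two_mul_finrank_le {G V : Type} [Group G] [Finite G] [AddCommGroup V] [Module ℂ V]
    [FiniteDimensional ℂ V] [Nontrivial V] (ρ : Representation ℂ G V)
    (hirr : ∀ W : Submodule ℂ V, (∀ g v, v ∈ W → ρ g v ∈ W) → W = ⊥ ∨ W = ⊤)
    (K : Subgroup G) (hnorm : ∀ (g : G) (k : K), g⁻¹ * (k : G) * g ∈ K)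
    (hcomm : ∀ a ∈ K, ∀ b ∈ K, a * b = b * a)
    (hst : ∀ ψ : K →* ℂˣ, ∃ g : G, g ∉ K ∧ ∀ k : K, ψ ⟨g⁻¹ * k * g, hnorm g k⟩ = ψ k) :
    2 * Module.finrank ℂ V ≤ K.index := by
  classical
  -- a minimal nonzero `K`-stable subspace
  let S : Set (Submodule ℂ V) := {W | W ≠ ⊥ ∧ ∀ k ∈ K, ∀ v ∈ W, ρ k v ∈ W}
  have hS : S.Nonempty := ⟨⊤, by
    refine ⟨?_, fun _ _ _ _ => Submodule.mem_top⟩
    exact top_ne_bot⟩
  obtain ⟨W, ⟨hWne, hWst⟩, hWmin⟩ :=
    WellFounded.has_min (wellFounded_lt : WellFounded ((· < ·) : Submodule ℂ V → _ → Prop)) S hS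
  have hscal : ∀ k ∈ K, ∃ μ : ℂ, ∀ w ∈ W, ρ k w = μ • w := by
    intro k hk
    haveI : Nontrivial W := (Submodule.nontrivial_iff_ne_bot).2 hWne
    let f : Module.End ℂ W := (ρ k).restrict (fun v hv => hWst k hk v hv)
    obtain ⟨μ, hμ⟩ := Module.End.exists_eigenvalue f
    obtain ⟨w0, hw0⟩ := hμ.exists_hasEigenvector
    refine ⟨μ, ?_⟩
    let W' : Submodule ℂ V := W ⊓ LinearMap.ker (ρ k - μ • LinearMap.id)
    have hmem : ∀ v, v ∈ W' ↔ v ∈ W ∧ ρ k v = μ • v := by
      intro v
      simp only [W', Submodule.mem_inf, LinearMap.mem_ker, LinearMap.sub_apply,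
        LinearMap.smul_apply, LinearMap.id_apply, sub_eq_zero]
    have hW'S : W' ∈ S := by
      constructor
      · rw [Submodule.ne_bot_iff]
        refine ⟨(w0 : V), (hmem _).2 ⟨w0.2, ?_⟩, ?_⟩
        · have := hw0.apply_eq_smul
          exact congrArg Subtype.val this
        · intro h
          exact hw0.2 (Subtype.ext h)
      · intro k' hk' v hv
        rw [hmem] at hv ⊢
        refine ⟨hWst k' hk' v hv.1, ?_⟩
        have h1 : ρ k (ρ k' v) = ρ k' (ρ k v) := by
          rw [← Module.End.mul_apply, ← Module.End.mul_apply, ← map_mul, ← map_mul,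
            hcomm k hk k' hk']
        rw [h1, hv.2, map_smul]
    have hle : W' ≤ W := inf_le_left
    have heq : W' = W := by
      by_contra hne
      exact hWmin W' hW'S (lt_of_le_of_ne hle hne)
    intro w hw
    rw [← heq] at hw
    exact ((hmem w).1 hw).2
  choose! μ hμ using hscal
  obtain ⟨w0, hw0W, hw0⟩ := (Submodule.ne_bot_iff _).1 hWne
  let ψ0 : K →* ℂ :=
    { toFun := fun k => μ k
      map_one' := by
        have h1 := hμ 1 (one_mem K) w0 hw0W
        rw [map_one, Module.End.one_apply] at h1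
        have h2 : (μ 1 - 1) • w0 = 0 := by rw [sub_smul, one_smul, ← h1, sub_self]
        rcases smul_eq_zero.1 h2 with h3 | h3
        · exact sub_eq_zero.1 h3
        · exact absurd h3 hw0
      map_mul' := by
        intro a b
        have h1 := hμ (a * b : K) (a * b : K).2 w0 hw0W
        rw [Subgroup.coe_mul, map_mul, Module.End.mul_apply, hμ b b.2 w0 hw0W, map_smul,
          hμ a a.2 w0 hw0W, smul_smul] at h1
        have h2 : (μ (a * b : G) - μ a * μ b) • w0 = 0 := by
          rw [sub_smul, ← h1, ← sub_smul, mul_comm (μ (b : G)), sub_self, zero_smul]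
        rcases smul_eq_zero.1 h2 with h3 | h3
        · exact sub_eq_zero.1 h3
        · exact absurd h3 hw0 }
  let ψ : K →* ℂˣ := ψ0.toHomUnits
  have hψ : ∀ k : K, ((ψ k : ℂˣ) : ℂ) = μ k := fun k => rfl
  obtain ⟨g, hgK, hg⟩ := hst ψ
  -- the isotypic space of `ψ`
  let E : Submodule ℂ V :=
    { carrier := {v | ∀ k : K, ρ k v = ((ψ k : ℂˣ) : ℂ) • v}
      add_mem' := by
        intro a b ha hb k
        rw [map_add, ha k, hb k, smul_add]
      zero_mem' := by
        intro k
        rw [map_zero, smul_zero]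
      smul_mem' := by
        intro c v hv k
        rw [map_smul, hv k, smul_comm] }
  have hEg : ∀ v ∈ E, ρ g v ∈ E := by
    intro v hv k
    have h1 : ρ (k : G) (ρ g v) = ρ g (ρ (g⁻¹ * k * g) v) := by
      rw [← Module.End.mul_apply, ← map_mul, ← Module.End.mul_apply, ← map_mul]
      congr 2
      group
    rw [h1]
    have h2 := hv ⟨g⁻¹ * k * g, hnorm g k⟩
    rw [hg k] at h2
    rw [h2, map_smul]
  have hEne : Nontrivial E := by
    rw [Submodule.nontrivial_iff_ne_bot, Submodule.ne_bot_iff]
    exact ⟨w0, fun k => by rw [hψ]; exact hμ k k.2 w0 hw0W, hw0⟩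
  obtain ⟨c, hc⟩ := Module.End.exists_eigenvalue ((ρ g).restrict hEg)
  obtain ⟨w, hw⟩ := hc.exists_hasEigenvector
  have hwg : ρ g (w : V) = c • (w : V) := congrArg Subtype.val hw.apply_eq_smul
  have hwne : (w : V) ≠ 0 := fun h => hw.2 (Subtype.ext h)
  have hinj : ∀ x : G, Function.Injective (ρ x) := by
    intro x a b hab
    have := congrArg (ρ x⁻¹) hab
    rwa [← Module.End.mul_apply, ← Module.End.mul_apply, ← map_mul, inv_mul_cancel, map_one,
      Module.End.one_apply, Module.End.one_apply] at this
  let L : Subgroup G :=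
    { carrier := {x | ∃ d : ℂ, ρ x (w : V) = d • (w : V)}
      one_mem' := ⟨1, by rw [map_one, Module.End.one_apply, one_smul]⟩
      mul_mem' := by
        rintro a b ⟨d, hd⟩ ⟨e, he⟩
        refine ⟨e * d, ?_⟩
        rw [map_mul, Module.End.mul_apply, he, map_smul, hd, smul_smul]
      inv_mem' := by
        rintro a ⟨d, hd⟩
        have hd0 : d ≠ 0 := by
          intro h
          rw [h, zero_smul] at hd
          exact hwne (hinj a (hd.trans (map_zero _).symm))
        refine ⟨d⁻¹, ?_⟩
        have := congrArg (ρ a⁻¹) hd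
        rw [← Module.End.mul_apply, ← map_mul, inv_mul_cancel, map_one, Module.End.one_apply,
          map_smul] at this
        rw [eq_comm, inv_smul_eq_iff₀ hd0]
        exact this }
  have hKL : K ≤ L := by
    intro k hk
    exact ⟨_, w.2 ⟨k, hk⟩⟩
  have hgL : g ∈ L := ⟨c, hwg⟩
  have hindex : 2 * L.index ≤ K.index := by
    rw [← Subgroup.relIndex_mul_index hKL]
    apply Nat.mul_le_mul_right
    have h1 : K.relIndex L ≠ 1 := by
      intro h
      rw [Subgroup.relIndex_eq_one] at h
      exact hgK (h hgL)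
    have h2 : K.relIndex L ≠ 0 := by
      rw [Subgroup.relIndex]
      exact Subgroup.index_ne_zero_of_finite
    omega
  have hfin : Module.finrank ℂ V ≤ L.index := by
    haveI : Fintype (G ⧸ L) := Fintype.ofFinite _
    let b : G ⧸ L → V := fun q => ρ q.out (w : V)
    have hstab : ∀ x v, v ∈ Submodule.span ℂ (Set.range b) →
        ρ x v ∈ Submodule.span ℂ (Set.range b) := by
      intro x v hv
      induction hv using Submodule.span_induction with
      | mem v hv =>
        obtain ⟨q, rfl⟩ := hv
        -- x * q.out = q'.out * l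
        have h1 : ((((x * q.out : G) : G ⧸ L)).out)⁻¹ * (x * q.out) ∈ L := by
          rw [← QuotientGroup.eq, QuotientGroup.out_eq']
        obtain ⟨d, hd⟩ := h1
        have h2 : ρ x (b q) = d • b ((x * q.out : G) : G ⧸ L) := by
          simp only [b]
          rw [← map_smul, ← hd, ← Module.End.mul_apply, ← Module.End.mul_apply, ← map_mul,
            ← map_mul, mul_inv_cancel_left]
        rw [h2]
        exact Submodule.smul_mem _ _ (Submodule.subset_span ⟨_, rfl⟩)
      | zero => rw [map_zero]; exact Submodule.zero_mem _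
      | add a b _ _ ha hb => rw [map_add]; exact Submodule.add_mem _ ha hb
      | smul c a _ ha => rw [map_smul]; exact Submodule.smul_mem _ _ ha
    have hspan : Submodule.span ℂ (Set.range b) = ⊤ := by
      rcases hirr (Submodule.span ℂ (Set.range b)) hstab with h | h
      · exfalso
        have h1 : b ((1 : G) : G ⧸ L) ∈ Submodule.span ℂ (Set.range b) :=
          Submodule.subset_span ⟨_, rfl⟩
        rw [h, Submodule.mem_bot] at h1
        exact hwne (hinj _ (h1.trans (map_zero _).symm))
      · exact h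
    have h3 := finrank_range_le_card (R := ℂ) b
    rw [Set.finrank, hspan, finrank_top] at h3
    rw [Subgroup.index, Nat.card_eq_fintype_card]
    exact h3
  omega

end H327R3
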