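import Mathlib

set_option autoImplicit false

namespace H327R3

/-- three by three matrices over the field with two elements, as nine bits -/
structure BM where
  (a b c d e f g h i : Bool)

/-- product of bit matrices -/
def BM.mul (x y : BM) : BM :=
  ⟨Bool.xor (Bool.xor (x.a && y.a) (x.b && y.d)) (x.c && y.g),
   Bool.xor (Bool.xor (x.a && y.b) (x.b && y.e)) (x.c && y.h),
   Bool.xor (Bool.xor (x.a && y.c) (x.b && y.f)) (x.c && y.i),
   Bool.xor (Bool.xor (x.d && y.a) (x.e && y.d)) (x.f && y.g),
   Bool.xor (Bool.xor (x.d && y.b) (x.e && y.e)) (x.f && y.h),
   Bool.xor (Bool.xor (x.d && y.c) (x.e && y.f)) (x.f && y.i),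
   Bool.xor (Bool.xor (x.g && y.a) (x.h && y.d)) (x.i && y.g),
   Bool.xor (Bool.xor (x.g && y.b) (x.h && y.e)) (x.i && y.h),
   Bool.xor (Bool.xor (x.g && y.c) (x.h && y.f)) (x.i && y.i)⟩

/-- equality test -/
def BM.eqb (x y : BM) : Bool :=
  (x.a == y.a) && (x.b == y.b) && (x.c == y.c) && (x.d == y.d) && (x.e == y.e) && (x.f == y.f) &&
    (x.g == y.g) && (x.h == y.h) && (x.i == y.i)

lemma BM.eq_of_eqb {x y : BM} (h : BM.eqb x y = true) : x = y := by
  cases x; cases y
  simp only [BM.eqb, Bool.and_eq_true, beq_iff_eq] at h
  obtain ⟨⟨⟨⟨⟨⟨⟨⟨h1, h2⟩, h3⟩, h4⟩, h5⟩, h6⟩, h7⟩, h8⟩, h9⟩ := h
  subst h1 h2 h3 h4 h5 h6 h7 h8 h9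
  rfl

/-- the identity -/
def BM.one : BM := ⟨true, false, false, false, true, false, false, false, true⟩

/-- a list of elements of prime order, with their inverses -/
def cands : List (BM × BM) := [
  (⟨false, false, true, false, true, false, true, false, false⟩, ⟨false, false, true, false, true, false, true, false, false⟩),
  (⟨false, true, false, true, false, false, false, false, true⟩, ⟨false, true, false, true, false, false, false, false, true⟩),
  (⟨true, false, false, false, false, true, false, true, false⟩, ⟨true, false, false, false, false, true, false, true, false⟩),
  (⟨true, false, false, false, true, false, false, true, true⟩, ⟨true, false, false, false, true, false, false, true, true⟩),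
  (⟨true, false, false, false, true, true, false, false, true⟩, ⟨true, false, false, false, true, true, false, false, true⟩),
  (⟨false, false, true, true, true, true, true, false, false⟩, ⟨false, false, true, true, true, true, true, false, false⟩),
  (⟨false, true, false, true, false, false, true, true, true⟩, ⟨false, true, false, true, false, false, true, true, true⟩),
  (⟨false, true, true, false, true, false, true, true, false⟩, ⟨false, true, true, false, true, false, true, true, false⟩),
  (⟨false, true, true, true, false, true, false, false, true⟩, ⟨false, true, true, true, false, true, false, false, true⟩),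
  (⟨true, false, false, false, true, false, true, false, true⟩, ⟨true, false, false, false, true, false, true, false, true⟩),
  (⟨true, false, false, false, true, false, true, true, true⟩, ⟨true, false, false, false, true, false, true, true, true⟩),
  (⟨true, false, false, true, false, true, true, true, false⟩, ⟨true, false, false, true, false, true, true, true, false⟩),
  (⟨true, false, false, true, true, false, false, false, true⟩, ⟨true, false, false, true, true, false, false, false, true⟩),
  (⟨true, false, false, true, true, false, true, false, true⟩, ⟨true, false, false, true, true, false, true, false, true⟩),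
  (⟨true, false, false, true, true, true, false, false, true⟩, ⟨true, false, false, true, true, true, false, false, true⟩),
  (⟨true, false, true, false, true, false, false, false, true⟩, ⟨true, false, true, false, true, false, false, false, true⟩),
  (⟨true, false, true, false, true, true, false, false, true⟩, ⟨true, false, true, false, true, true, false, false, true⟩),
  (⟨true, true, false, false, true, false, false, false, true⟩, ⟨true, true, false, false, true, false, false, false, true⟩),
  (⟨true, true, false, false, true, false, false, true, true⟩, ⟨true, true, false, false, true, false, false, true, true⟩),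
  (⟨true, true, true, false, false, true, false, true, false⟩, ⟨true, true, true, false, false, true, false, true, false⟩),
  (⟨true, true, true, false, true, false, false, false, true⟩, ⟨true, true, true, false, true, false, false, false, true⟩),
  (⟨false, false, true, false, true, true, true, true, false⟩, ⟨true, true, true, true, true, false, true, false, false⟩),
  (⟨false, false, true, false, true, true, true, true, true⟩, ⟨false, true, true, true, true, false, true, false, false⟩),
  (⟨false, false, true, true, false, false, false, true, true⟩, ⟨false, true, false, true, false, true, true, false, false⟩),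
  (⟨false, false, true, true, false, false, true, true, false⟩, ⟨false, true, false, false, true, true, true, false, false⟩),
  (⟨false, false, true, true, false, true, false, true, false⟩, ⟨true, true, false, false, false, true, true, false, false⟩),
  (⟨false, false, true, true, false, true, true, true, true⟩, ⟨true, true, false, false, true, true, true, false, false⟩),
  (⟨false, false, true, true, true, false, false, true, false⟩, ⟨false, true, true, false, false, true, true, false, false⟩),
  (⟨false, false, true, true, true, false, false, true, true⟩, ⟨true, true, true, true, false, true, true, false, false⟩),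
  (⟨false, false, true, false, true, false, true, false, true⟩, ⟨true, false, true, false, true, false, true, false, false⟩),
  (⟨false, false, true, false, true, false, true, true, true⟩, ⟨true, true, true, false, true, false, true, false, false⟩),
  (⟨false, false, true, false, true, true, true, false, true⟩, ⟨true, false, true, true, true, false, true, false, false⟩),
  (⟨false, false, true, true, false, false, false, true, false⟩, ⟨false, true, false, false, false, true, true, false, false⟩),
  (⟨false, false, true, true, false, true, true, true, false⟩, ⟨true, true, false, true, true, true, true, false, false⟩),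
  (⟨false, false, true, true, true, false, true, false, true⟩, ⟨true, false, true, true, true, true, true, false, false⟩),
  (⟨false, false, true, true, true, true, false, true, true⟩, ⟨false, true, true, true, false, true, true, false, false⟩),
  (⟨false, false, true, true, true, true, true, false, true⟩, ⟨true, false, true, false, true, true, true, false, false⟩),
  (⟨false, true, false, false, true, true, true, true, true⟩, ⟨false, true, true, true, false, false, true, true, false⟩),
  (⟨false, true, false, true, false, true, true, true, false⟩, ⟨true, false, true, true, false, false, true, true, true⟩),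
  (⟨false, true, false, true, true, false, false, false, true⟩, ⟨true, true, false, true, false, false, false, false, true⟩),
  (⟨false, true, false, true, true, false, false, true, true⟩, ⟨true, true, false, true, false, false, true, false, true⟩),
  (⟨false, true, false, true, true, false, true, false, true⟩, ⟨true, true, false, true, false, false, true, true, true⟩),
  (⟨false, true, false, true, true, false, true, true, true⟩, ⟨true, true, false, true, false, false, false, true, true⟩),
  (⟨false, true, false, true, true, true, false, false, true⟩, ⟨true, true, true, true, false, false, false, false, true⟩),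
  (⟨false, true, true, false, false, true, true, true, false⟩, ⟨true, true, true, true, true, false, false, true, false⟩),
  (⟨false, true, true, false, true, false, true, false, true⟩, ⟨true, true, true, false, true, false, true, true, false⟩),
  (⟨false, true, true, false, true, false, true, true, true⟩, ⟨true, false, true, false, true, false, true, true, false⟩),
  (⟨false, true, true, true, false, true, false, true, false⟩, ⟨true, true, true, false, false, true, true, false, true⟩),
  (⟨false, true, true, true, true, false, false, false, true⟩, ⟨true, true, true, true, false, true, false, false, true⟩),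
  (⟨false, true, true, true, true, true, false, false, true⟩, ⟨true, true, false, true, false, true, false, false, true⟩),
  (⟨true, false, false, false, false, true, false, true, true⟩, ⟨true, false, false, false, true, true, false, true, false⟩),
  (⟨true, false, false, false, false, true, true, true, true⟩, ⟨true, false, false, true, true, true, false, true, false⟩),
  (⟨true, false, false, false, true, true, true, true, false⟩, ⟨true, false, false, true, false, true, true, true, true⟩),
  (⟨true, false, false, true, false, true, false, true, true⟩, ⟨true, false, false, true, true, true, true, true, false⟩),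
  (⟨true, false, true, false, false, true, false, true, true⟩, ⟨true, true, false, false, true, true, false, true, false⟩),
  (⟨true, false, true, false, true, true, false, true, false⟩, ⟨true, true, true, false, false, true, false, true, true⟩),
  (⟨true, true, false, false, false, true, false, true, true⟩, ⟨true, true, true, false, true, true, false, true, false⟩)]

lemma cands_ok : (cands.all fun p => BM.eqb (BM.mul p.1 p.2) BM.one && !(BM.eqb p.1 BM.one)) = true := by
  decide

set_option maxRecDepth 100000 in
lemma cands_cover : ∀ a b c d e f g h i : Bool,
    (cands.any fun p => BM.eqb (BM.mul p.1 ⟨a, b, c, d, e, f, g, h, i⟩)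
      (BM.mul ⟨a, b, c, d, e, f, g, h, i⟩ p.1)) = true := by
  decide +kernel

/-- a bit as an element of the field -/
def bz (b : Bool) : ZMod 2 := if b then 1 else 0

lemma bz_xor (a b : Bool) : bz (Bool.xor a b) = bz a + bz b := by
  revert a b; decide

lemma bz_and (a b : Bool) : bz (a && b) = bz a * bz b := by
  revert a b; decide

lemma bz_surj (z : ZMod 2) : ∃ b, bz b = z := by
  revert z; decide

/-- the matrix of nine bits -/
def BM.toMat (x : BM) : Matrix (Fin 3) (Fin 3) (ZMod 2) :=
  !![bz x.a, bz x.b, bz x.c; bz x.d, bz x.e, bz x.f; bz x.g, bz x.h, bz x.i]

lemma BM.toMat_mul (x y : BM) : (BM.mul x y).toMat = x.toMat * y.toMat := by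
  ext i j
  fin_cases i <;> fin_cases j <;>
    simp [BM.mul, BM.toMat, bz_xor, bz_and, Matrix.mul_apply, Fin.sum_univ_three, add_assoc]

lemma BM.toMat_one : BM.one.toMat = 1 := by
  ext i j
  fin_cases i <;> fin_cases j <;> rfl

lemma BM.toMat_inj {x y : BM} (h : x.toMat = y.toMat) : x = y := by
  have hb : ∀ a b : Bool, bz a = bz b → a = b := by decide
  have h1 := hb _ _ (congrFun (congrFun h 0) 0)
  have h2 := hb _ _ (congrFun (congrFun h 0) 1)
  have h3 := hb _ _ (congrFun (congrFun h 0) 2)
  have h4 := hb _ _ (congrFun (congrFun h 1) 0)
  have h5 := hb _ _ (congrFun (congrFun h 1) 1)
  have h6 := hb _ _ (congrFun (congrFun h 1) 2)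
  have h7 := hb _ _ (congrFun (congrFun h 2) 0)
  have h8 := hb _ _ (congrFun (congrFun h 2) 1)
  have h9 := hb _ _ (congrFun (congrFun h 2) 2)
  cases x; cases y
  simp only at h1 h2 h3 h4 h5 h6 h7 h8 h9
  subst h1 h2 h3 h4 h5 h6 h7 h8 h9
  rfl

lemma BM.toMat_surj (M : Matrix (Fin 3) (Fin 3) (ZMod 2)) : ∃ x : BM, x.toMat = M := by
  choose s hs using bz_surj
  refine ⟨⟨s (M 0 0), s (M 0 1), s (M 0 2), s (M 1 0), s (M 1 1), s (M 1 2), s (M 2 0),
    s (M 2 1), s (M 2 2)⟩, ?_⟩
  ext i j
  fin_cases i <;> fin_cases j <;> simp [BM.toMat, hs]

/-- every three by three matrix over the field with two elements commutes with some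
invertible matrix different from the identity -/
theorem exists_commuting (B : Matrix (Fin 3) (Fin 3) (ZMod 2)) :
    ∃ c : GL (Fin 3) (ZMod 2), c ≠ 1 ∧ c.1 * B = B * c.1 := by
  obtain ⟨x, rfl⟩ := BM.toMat_surj B
  obtain ⟨a, b, c, d, e, f, g, h, i⟩ := x
  have h1 := cands_cover a b c d e f g h i
  rw [List.any_eq_true] at h1
  obtain ⟨p, hp, hpc⟩ := h1
  have h2 := cands_ok
  rw [List.all_eq_true] at h2
  have h3 := h2 p hp
  simp only [Bool.and_eq_true, Bool.not_eq_true'] at h3
  have h4 := BM.eq_of_eqb h3.1
  have h5 : p.1.toMat * p.2.toMat = 1 := by rw [← BM.toMat_mul, h4, BM.toMat_one]
  have h6 : p.2.toMat * p.1.toMat = 1 := mul_eq_one_comm.1 h5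
  refine ⟨⟨p.1.toMat, p.2.toMat, h5, h6⟩, ?_, ?_⟩
  · intro hone
    have h7 : p.1.toMat = BM.one.toMat := by
      rw [BM.toMat_one]
      exact congrArg Units.val hone
    have h8 := BM.toMat_inj h7
    have h9 : BM.eqb p.1 BM.one = true := by
      rw [h8]; rfl
    rw [h9] at h3
    exact absurd h3.2 (by decide)
  · have h10 := BM.eq_of_eqb hpc
    change p.1.toMat * _ = _ * p.1.toMat
    rw [← BM.toMat_mul, h10, BM.toMat_mul]

end H327R3
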