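import Mathlib

set_option autoImplicit false

namespace H327R3

section Induce

variable {G : Type} [Group G] (H : Subgroup G) (χ : H →* ℂˣ)

/-- functions on `G` that transform by the inverse of `χ` under right translation by `H` -/
def indSpace : Submodule ℂ (G → ℂ) where
  carrier := {f | ∀ (g : G) (h : H), f (g * h) * (χ h : ℂ) = f g}
  add_mem' := by
    intro a b ha hb g h
    simp only [Pi.add_apply, add_mul, ha g h, hb g h]
  zero_mem' := by
    intro g h
    simp
  smul_mem' := by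
    intro c f hf g h
    simp only [Pi.smul_apply, smul_eq_mul, mul_assoc, hf g h]

/-- the induced representation -/
def indRep : Representation ℂ G (indSpace H χ) where
  toFun x :=
    { toFun := fun f => ⟨fun g => f.1 (x⁻¹ * g), by
        intro g h
        have := f.2 (x⁻¹ * g) h
        rw [mul_assoc] at this
        exact this⟩
      map_add' := by
        intro a b
        rfl
      map_smul' := by
        intro a b
        rfl }
  map_one' := by
    ext f g
    simp
  map_mul' := by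
    intro x y
    ext f g
    simp [mul_assoc]

@[simp] lemma indRep_apply (x : G) (f : indSpace H χ) (g : G) :
    (indRep H χ x f).1 g = f.1 (x⁻¹ * g) := rfl

/-- the `H`-part of an element with respect to the chosen coset representatives -/
noncomputable def hpart (g : G) : H :=
  ⟨((g : G ⧸ H).out)⁻¹ * g, by
    rw [← QuotientGroup.eq, QuotientGroup.out_eq']⟩

lemma out_mul_hpart (g : G) : ((g : G ⧸ H).out) * (hpart H g : G) = g := by
  simp [hpart]

lemma hpart_mul (g : G) (h : H) : hpart H (g * h) = hpart H g * h := by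
  apply Subtype.ext
  simp only [hpart, Subgroup.coe_mul]
  have : ((g * h : G) : G ⧸ H) = (g : G ⧸ H) := by
    rw [eq_comm, QuotientGroup.eq]
    simp
  rw [this, mul_assoc]

/-- coordinates of the induced representation -/
noncomputable def indEquiv : indSpace H χ ≃ₗ[ℂ] (G ⧸ H → ℂ) where
  toFun f := fun c => f.1 c.out
  map_add' := by intro a b; rfl
  map_smul' := by intro a b; rfl
  invFun F := ⟨fun g => F (g : G ⧸ H) * ((χ (hpart H g))⁻¹ : ℂˣ), by
    intro g h
    have h1 : ((g * h : G) : G ⧸ H) = (g : G ⧸ H) := by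
      rw [eq_comm, QuotientGroup.eq]
      simp
    beta_reduce
    rw [hpart_mul, map_mul, mul_inv, h1, mul_assoc]
    congr 1
    rw [← Units.val_mul, mul_assoc, inv_mul_cancel, mul_one]⟩
  left_inv := by
    intro f
    apply Subtype.ext
    funext g
    have := f.2 ((g : G ⧸ H).out) (hpart H g)
    rw [out_mul_hpart] at this
    simp only
    rw [← this, mul_assoc, ← Units.val_mul, mul_inv_cancel, Units.val_one, mul_one]
  right_inv := by
    intro F
    funext c
    have h1 : hpart H (c.out) = 1 := by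
      apply Subtype.ext
      simp [hpart]
    simp [h1]

lemma finrank_indSpace [Finite G] : Module.finrank ℂ (indSpace H χ) = H.index := by
  classical
  haveI : Fintype (G ⧸ H) := Fintype.ofFinite _
  rw [LinearEquiv.finrank_eq (indEquiv H χ), Module.finrank_fintype_fun_eq_card,
    Subgroup.index, Nat.card_eq_fintype_card]

instance [Finite G] : FiniteDimensional ℂ (indSpace H χ) := by
  infer_instance

variable {H χ}

theorem indRep_irreducible [Finite G] (K : Subgroup G) [K.Normal] (hKH : K ≤ H)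
    (hst : ∀ g : G, g ∉ H → ∃ (k : G) (hk : k ∈ K) (hk' : g⁻¹ * k * g ∈ K),
      χ ⟨g⁻¹ * k * g, hKH hk'⟩ ≠ χ ⟨k, hKH hk⟩)
    (U : Submodule ℂ (indSpace H χ)) (hU : ∀ g v, v ∈ U → indRep H χ g v ∈ U) :
    U = ⊥ ∨ U = ⊤ := by
  classical
  haveI : Fintype K := Fintype.ofFinite _
  haveI : Fintype (G ⧸ H) := Fintype.ofFinite _
  by_cases hbot : U = ⊥
  · exact Or.inl hbot
  right
  obtain ⟨u, huU, hu0⟩ := (Submodule.ne_bot_iff _).1 hbot
  obtain ⟨g0, hg0⟩ : ∃ g0, u.1 g0 ≠ 0 := by
    by_contra hcon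
    push Not at hcon
    exact hu0 (Subtype.ext (funext hcon))
  set u' := indRep H χ g0⁻¹ u with hu'
  have hu'U : u' ∈ U := hU _ _ huU
  have hu'1 : u'.1 1 ≠ 0 := by
    simpa [hu'] using hg0
  set e : indSpace H χ :=
    ∑ k : K, (((χ ⟨k, hKH k.2⟩)⁻¹ : ℂˣ) : ℂ) • indRep H χ (k : G) u' with he
  have heU : e ∈ U := Submodule.sum_mem _ fun k _ => Submodule.smul_mem _ _ (hU _ _ hu'U)
  have hnorm : ∀ (g : G) (k : K), g⁻¹ * (k : G) * g ∈ K := by
    intro g k
    have := (inferInstance : K.Normal).conj_mem k k.2 g⁻¹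
    simpa using this
  -- the character comparing `χ` and its conjugate
  let F : G → (K →* ℂ) := fun g =>
    { toFun := fun k => (((χ ⟨k, hKH k.2⟩)⁻¹ * χ ⟨g⁻¹ * k * g, hKH (hnorm g k)⟩ : ℂˣ) : ℂ)
      map_one' := by
        have h1 : (⟨((1 : K) : G), hKH (1 : K).2⟩ : H) = 1 := rfl
        have h2 : (⟨g⁻¹ * ((1 : K) : G) * g, hKH (hnorm g 1)⟩ : H) = 1 := by
          apply Subtype.ext
          simp
        rw [h1, h2]
        simp
      map_mul' := by
        intro a b
        have h1 : (⟨((a * b : K) : G), hKH (a * b : K).2⟩ : H) =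
          ⟨(a : G), hKH a.2⟩ * ⟨(b : G), hKH b.2⟩ := rfl
        have h2 : (⟨g⁻¹ * ((a * b : K) : G) * g, hKH (hnorm g (a * b))⟩ : H) =
            ⟨g⁻¹ * (a : G) * g, hKH (hnorm g a)⟩ * ⟨g⁻¹ * (b : G) * g, hKH (hnorm g b)⟩ := by
          apply Subtype.ext
          simp only [Subgroup.coe_mul]
          group
        rw [h1, h2, map_mul, map_mul, ← Units.val_mul]
        congr 1
        rw [mul_inv]
        exact mul_mul_mul_comm _ _ _ _ }
  have heval : ∀ g : G, e.1 g = u'.1 g * ∑ k : K, F g k := by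
    intro g
    have h1 : e.1 g = ∑ k : K, (((χ ⟨k, hKH k.2⟩)⁻¹ : ℂˣ) : ℂ) * u'.1 ((k : G)⁻¹ * g) := by
      rw [he]
      simp [Finset.sum_apply]
    rw [h1, Finset.mul_sum]
    refine Finset.sum_congr rfl fun k _ => ?_
    have h2 := u'.2 ((k : G)⁻¹ * g) ⟨g⁻¹ * (k : G) * g, hKH (hnorm g k)⟩
    have h3 : (k : G)⁻¹ * g * (g⁻¹ * (k : G) * g) = g := by group
    simp only [h3] at h2
    rw [← h2]
    simp only [F, MonoidHom.coe_mk, OneHom.coe_mk, Units.val_mul]
    ring
  have hF0 : ∀ g : G, g ∉ H → ∑ k : K, F g k = 0 := by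
    intro g hg
    apply sum_hom_units_eq_zero
    intro hF
    obtain ⟨k, hk, hk', hne⟩ := hst g hg
    apply hne
    have h4 := DFunLike.congr_fun hF (⟨k, hk⟩ : K)
    simp only [F, MonoidHom.coe_mk, OneHom.coe_mk, MonoidHom.one_apply] at h4
    have h5 : (χ ⟨k, hKH hk⟩)⁻¹ * χ ⟨g⁻¹ * k * g, hKH hk'⟩ = 1 := Units.ext h4
    exact (inv_mul_eq_one.1 h5).symm
  have hF1 : ∀ h : H, ∑ k : K, F (h : G) k = Fintype.card K := by
    intro h
    have : ∀ k : K, F (h : G) k = 1 := by
      intro k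
      simp only [F, MonoidHom.coe_mk, OneHom.coe_mk]
      have h6 : (⟨(h : G)⁻¹ * (k : G) * (h : G), hKH (hnorm h k)⟩ : H) =
          h⁻¹ * ⟨k, hKH k.2⟩ * h := rfl
      rw [h6, map_mul, map_mul, map_inv]
      have : (χ ⟨k, hKH k.2⟩)⁻¹ * ((χ h)⁻¹ * χ ⟨k, hKH k.2⟩ * χ h) = 1 := by
        rw [mul_comm (χ h)⁻¹, mul_assoc, inv_mul_cancel, mul_one, inv_mul_cancel]
      rw [this, Units.val_one]
    rw [Finset.sum_congr rfl fun k _ => this k]
    simp
  have hcard : (Fintype.card K : ℂ) ≠ 0 := by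
    exact_mod_cast Fintype.card_ne_zero
  rw [eq_top_iff]
  intro f _
  have hf : f = ∑ c : G ⧸ H, (f.1 c.out / ((Fintype.card K : ℂ) * u'.1 1)) •
      indRep H χ c.out e := by
    apply Subtype.ext
    funext g
    have h1 : (∑ c : G ⧸ H, (f.1 c.out / ((Fintype.card K : ℂ) * u'.1 1)) •
      indRep H χ c.out e).1 g = ∑ c : G ⧸ H, (f.1 c.out / ((Fintype.card K : ℂ) * u'.1 1)) *
        e.1 (c.out⁻¹ * g) := by
      simp [Finset.sum_apply]
    rw [h1, Finset.sum_eq_single (g : G ⧸ H)]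
    · have h2 : ((g : G ⧸ H).out)⁻¹ * g = (hpart H g : G) := rfl
      rw [h2, heval, hF1]
      have h3 := u'.2 1 (hpart H g)
      have h4 := f.2 ((g : G ⧸ H).out) (hpart H g)
      rw [out_mul_hpart] at h4
      rw [one_mul] at h3
      rw [← h4, ← h3]
      have h5 : u'.1 (hpart H g : G) ≠ 0 := by
        intro h
        rw [h, zero_mul] at h3
        exact hu'1 h3.symm
      have h6 : ((χ (hpart H g) : ℂˣ) : ℂ) ≠ 0 := Units.ne_zero _
      field_simp
    · intro c _ hc
      have : c.out⁻¹ * g ∉ H := by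
        intro hmem
        apply hc
        rw [← QuotientGroup.out_eq' c, QuotientGroup.eq]
        exact hmem
      rw [heval, hF0 _ this, mul_zero, mul_zero]
    · intro h
      exact absurd (Finset.mem_univ _) h
  rw [hf]
  exact Submodule.sum_mem _ fun c _ => Submodule.smul_mem _ _ (hU _ _ heU)

/-- the function supported on `H` -/
noncomputable def indOne (H : Subgroup G) (χ : H →* ℂˣ) : indSpace H χ :=
  (indEquiv H χ).symm (fun c => by classical exact if c = ((1 : G) : G ⧸ H) then 1 else 0)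

theorem exists_irrep [Finite G] (K : Subgroup G) [K.Normal] (hKH : K ≤ H)
    (hst : ∀ g : G, g ∉ H → ∃ (k : G) (hk : k ∈ K) (hk' : g⁻¹ * k * g ∈ K),
      χ ⟨g⁻¹ * k * g, hKH hk'⟩ ≠ χ ⟨k, hKH hk⟩)
    (k0 : G) (hk0 : k0 ∈ K) (hχ : χ ⟨k0, hKH hk0⟩ ≠ 1) :
    FiniteDimensional ℂ (indSpace H χ) ∧ Nontrivial (indSpace H χ) ∧
    (∀ W : Submodule ℂ (indSpace H χ), (∀ g v, v ∈ W → indRep H χ g v ∈ W) → W = ⊥ ∨ W = ⊤) ∧
    indRep H χ k0 ≠ 1 ∧ Module.finrank ℂ (indSpace H χ) = H.index := by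
  classical
  refine ⟨inferInstance, ?_, indRep_irreducible K hKH hst, ?_, finrank_indSpace H χ⟩
  · apply Module.nontrivial_of_finrank_pos (R := ℂ)
    rw [finrank_indSpace]
    exact Nat.pos_of_ne_zero Subgroup.index_ne_zero_of_finite
  · intro h
    -- take a function with nonzero value at 1
    let f : indSpace H χ := (indEquiv H χ).symm (fun _ => 1)
    have hf : ∀ g : G, f.1 g = ((χ (hpart H g))⁻¹ : ℂˣ) := by
      intro g
      change (1 : ℂ) * _ = _
      rw [one_mul]
    have h1 : (indRep H χ k0 f).1 1 = f.1 1 := by rw [h]; rfl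
    rw [indRep_apply, mul_one] at h1
    have h2 := f.2 1 ⟨k0⁻¹, inv_mem (hKH hk0)⟩
    simp only [one_mul] at h2
    rw [h1] at h2
    have h3 : f.1 1 ≠ 0 := by
      rw [hf]
      exact Units.ne_zero _
    have h4 : ((χ ⟨k0⁻¹, inv_mem (hKH hk0)⟩ : ℂˣ) : ℂ) = 1 := by
      have := mul_left_cancel₀ h3 (h2.trans (mul_one _).symm)
      exact this
    apply hχ
    have h5 : (⟨k0⁻¹, inv_mem (hKH hk0)⟩ : H) = (⟨k0, hKH hk0⟩ : H)⁻¹ := rfl
    rw [h5, map_inv] at h4
    have h6 : (χ ⟨k0, hKH hk0⟩)⁻¹ = 1 := Units.ext h4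
    exact inv_eq_one.1 h6

end Induce

end H327R3
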