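import Mathlib
import Pool.Agent.H327R3.Induce

set_option autoImplicit false

namespace H327R3

open Matrix

/-- a surjection onto a field whose kernel has square zero -/
structure SqZero {A k : Type} [CommRing A] [Field k] (π : A →+* k) : Prop where
  surj : Function.Surjective π
  sq : ∀ x y, π x = 0 → π y = 0 → x * y = 0

section

variable {A k : Type} [CommRing A] [Field k] {π : A →+* k}

lemma SqZero.isUnit (h : SqZero π) {x : A} (hx : π x ≠ 0) : IsUnit x := by
  obtain ⟨y, hy⟩ := h.surj (π x)⁻¹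
  have h1 : π (x * y - 1) = 0 := by
    rw [map_sub, map_mul, hy, map_one, mul_inv_cancel₀ hx, sub_self]
  have h2 := h.sq _ _ h1 h1
  have h3 : x * (y * (2 - x * y)) = 1 := by linear_combination -h2
  exact IsUnit.of_mul_eq_one _ h3

/-- reduction on `GL_3` -/
abbrev red (π : A →+* k) : GL (Fin 3) A →* GL (Fin 3) k := Matrix.GeneralLinearGroup.map π

lemma red_apply (g : GL (Fin 3) A) (i j : Fin 3) : (red π g).1 i j = π (g.1 i j) := rfl

lemma SqZero.red_surj (h : SqZero π) : Function.Surjective (red π) := by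
  intro g
  choose s hs using h.surj
  let M : Matrix (Fin 3) (Fin 3) A := fun i j => s (g.1 i j)
  have hM : π.mapMatrix M = g.1 := by
    ext i j
    exact hs _
  have hdet : π M.det = g.1.det := by
    rw [RingHom.map_det, hM]
  have hu : IsUnit M.det := by
    apply h.isUnit
    rw [hdet]
    exact (Matrix.GeneralLinearGroup.det g).ne_zero
  refine ⟨Matrix.GeneralLinearGroup.mk'' M hu, ?_⟩
  apply Units.ext
  exact hM

/-- the diagonal torus -/
def torus (k : Type) [Field k] : Subgroup (GL (Fin 3) k) :=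
  (Units.map (Matrix.diagonalRingHom (Fin 3) k).toMonoidHom).range

lemma mem_torus {g : GL (Fin 3) k} : g ∈ torus k ↔ ∀ i j, i ≠ j → g.1 i j = 0 := by
  constructor
  · rintro ⟨u, rfl⟩ i j hij
    change Matrix.diagonal _ i j = 0
    exact Matrix.diagonal_apply_ne _ hij
  · intro hg
    have h1 : g.1 = Matrix.diagonal (fun i => g.1 i i) := by
      ext i j
      by_cases hij : i = j
      · subst hij; simp
      · rw [hg i j hij, Matrix.diagonal_apply_ne _ hij]
    have h2 : g.1.det ≠ 0 := (Matrix.GeneralLinearGroup.det g).ne_zero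
    have h3 : ∀ i, g.1 i i ≠ 0 := by
      intro i hi
      apply h2
      rw [h1, Matrix.det_diagonal]
      exact Finset.prod_eq_zero (Finset.mem_univ i) hi
    refine ⟨MulEquiv.piUnits.symm (fun i => Units.mk0 (g.1 i i) (h3 i)), ?_⟩
    apply Units.ext
    exact h1.symm

lemma card_torus [Finite k] : Nat.card (torus k) = (Nat.card k - 1) ^ 3 := by
  classical
  have h1 : Function.Injective
      (Units.map (Matrix.diagonalRingHom (Fin 3) k).toMonoidHom) := by
    apply Units.map_injective
    exact Matrix.diagonal_injective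
  have h2 : Nat.card (torus k) = Nat.card ((Fin 3 → k)ˣ) :=
    (Nat.card_congr (MonoidHom.ofInjective h1).toEquiv).symm
  rw [h2, Nat.card_congr (MulEquiv.piUnits (M := fun _ : Fin 3 => k)).toEquiv, Nat.card_pi,
    Finset.prod_const, Finset.card_univ, Fintype.card_fin, Nat.card_units]

/-- matrices with diagonal reduction -/
def Hsub (π : A →+* k) : Subgroup (GL (Fin 3) A) := (torus k).comap (red π)

lemma mem_Hsub {g : GL (Fin 3) A} : g ∈ Hsub π ↔ ∀ i j, i ≠ j → π (g.1 i j) = 0 := by
  rw [Hsub, Subgroup.mem_comap, mem_torus]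
  rfl

/-- the congruence kernel -/
def Ksub (π : A →+* k) : Subgroup (GL (Fin 3) A) := (red π).ker

instance : (Ksub π).Normal := by unfold Ksub; infer_instance

lemma mem_Ksub {g : GL (Fin 3) A} :
    g ∈ Ksub π ↔ ∀ i j, π (g.1 i j) = (1 : Matrix (Fin 3) (Fin 3) k) i j := by
  rw [Ksub, MonoidHom.mem_ker]
  constructor
  · intro h i j
    have := congrArg (fun x : GL (Fin 3) k => x.1 i j) h
    exact this
  · intro h
    apply Units.ext
    ext i j
    exact h i j

lemma K_le_H : Ksub π ≤ Hsub π := by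
  intro g hg
  rw [mem_Hsub]
  intro i j hij
  rw [mem_Ksub.1 hg, Matrix.one_apply_ne hij]

lemma SqZero.index_H (h : SqZero π) [Finite k] :
    (Hsub π).index * (Nat.card k - 1) ^ 3 =
      (Nat.card k ^ 3 - 1) * (Nat.card k ^ 3 - Nat.card k) * (Nat.card k ^ 3 - Nat.card k ^ 2) := by
  classical
  haveI : Fintype k := Fintype.ofFinite k
  rw [Hsub, Subgroup.index_comap_of_surjective _ h.red_surj, ← card_torus, mul_comm,
    Subgroup.card_mul_index, Matrix.card_GL_field]
  simp [Fin.prod_univ_succ, Nat.card_eq_fintype_card, mul_assoc]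

/-- the diagonal entries are multiplicative on `Hsub` -/
def SqZero.diagHom (h : SqZero π) (i : Fin 3) : Hsub π →* A where
  toFun g := g.1.1 i i
  map_one' := by simp
  map_mul' := by
    intro x y
    have h1 : ((x * y : Hsub π) : GL (Fin 3) A).1 i i = ∑ j, x.1.1 i j * y.1.1 j i := by
      rw [Subgroup.coe_mul, Units.val_mul, Matrix.mul_apply]
    rw [h1, Finset.sum_eq_single i]
    · intro j _ hj
      exact h.sq _ _ (mem_Hsub.1 x.2 _ _ hj.symm) (mem_Hsub.1 y.2 _ _ hj)
    · intro h; exact absurd (Finset.mem_univ _) h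

/-- the linear character `h ↦ θ(h₁₁) θ(h₂₂)²` of `Hsub` -/
noncomputable def SqZero.chi (h : SqZero π) (θ : Aˣ →* ℂˣ) : Hsub π →* ℂˣ :=
  (θ.comp (h.diagHom 1).toHomUnits) * (θ.comp (h.diagHom 2).toHomUnits) ^ 2

lemma SqZero.chi_eq (h : SqZero π) (θ : Aˣ →* ℂˣ) (x : Hsub π) (u : Aˣ)
    (hu : (u : A) = x.1.1 1 1 * (x.1.1 2 2) ^ 2) : h.chi θ x = θ u := by
  have h1 : u = (h.diagHom 1).toHomUnits x * ((h.diagHom 2).toHomUnits x) ^ 2 := by
    apply Units.ext
    rw [hu]
    simp [SqZero.diagHom]
  rw [h1]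
  simp [SqZero.chi]

/-- elementary elements of the congruence kernel -/
def elem (h : SqZero π) (a : A) (ha : π a = 0) (i j : Fin 3) : GL (Fin 3) A where
  val := 1 + Matrix.single j i a
  inv := 1 - Matrix.single j i a
  val_inv := by
    have h1 : Matrix.single j i a * Matrix.single j i a = 0 := by
      by_cases hij : i = j
      · subst hij
        rw [Matrix.single_mul_single_same, h.sq a a ha ha, Matrix.single_zero]
      · exact Matrix.single_mul_single_of_ne _ _ _ _ hij _
    rw [mul_sub, add_mul, add_mul, h1]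
    simp
  inv_val := by
    have h1 : Matrix.single j i a * Matrix.single j i a = 0 := by
      by_cases hij : i = j
      · subst hij
        rw [Matrix.single_mul_single_same, h.sq a a ha ha, Matrix.single_zero]
      · exact Matrix.single_mul_single_of_ne _ _ _ _ hij _
    rw [mul_add, sub_mul, sub_mul, h1]
    simp

lemma elem_mem (h : SqZero π) (a : A) (ha : π a = 0) (i j : Fin 3) :
    elem h a ha i j ∈ Ksub π := by
  rw [mem_Ksub]
  intro s t
  change π ((1 + Matrix.single j i a : Matrix (Fin 3) (Fin 3) A) s t) = _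
  rw [Matrix.add_apply, map_add]
  have h1 : π ((Matrix.single j i a : Matrix (Fin 3) (Fin 3) A) s t) = 0 := by
    rw [Matrix.single_apply]
    split_ifs
    · exact ha
    · exact map_zero π
  rw [h1, add_zero, Matrix.one_apply, Matrix.one_apply]
  split_ifs <;> simp

lemma distinguish (h : SqZero π) (θ : Aˣ →* ℂˣ) (a0 : A) (ha0 : π a0 = 0) (u0 : Aˣ)
    (hu0 : (u0 : A) = 1 + a0) (hθ : θ u0 ≠ 1) (h2 : (2 : k) ≠ 0)
    (g : GL (Fin 3) A) (hg : g ∉ Hsub π) :
    ∃ (x : GL (Fin 3) A) (hx : x ∈ Ksub π) (hx' : g⁻¹ * x * g ∈ Ksub π),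
      h.chi θ ⟨g⁻¹ * x * g, K_le_H hx'⟩ ≠ h.chi θ ⟨x, K_le_H hx⟩ := by
  classical
  let D : Matrix (Fin 3) (Fin 3) A := Matrix.diagonal ![0, 1, 2]
  let Z : Matrix (Fin 3) (Fin 3) A := g.1 * D * (g⁻¹).1
  -- some entry of `Z - D` is a unit
  obtain ⟨i, j, hij⟩ : ∃ i j, π (Z i j - D i j) ≠ 0 := by
    by_contra hcon
    push Not at hcon
    apply hg
    rw [mem_Hsub]
    intro s t hst
    have h1 : π.mapMatrix (Z - D) = 0 := by
      ext i j
      exact hcon i j
    have h3 : (Z - D) * g.1 = g.1 * D - D * g.1 := by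
      rw [sub_mul]
      have : (g⁻¹).1 * g.1 = 1 := by
        rw [← Units.val_mul, inv_mul_cancel, Units.val_one]
      simp only [Z]
      rw [mul_assoc, this, mul_one]
    have h4 : π.mapMatrix (g.1 * D - D * g.1) = 0 := by
      rw [← h3, map_mul, h1, zero_mul]
    have h5 := congrFun (congrFun h4 s) t
    change π ((g.1 * D - D * g.1) s t) = 0 at h5
    rw [Matrix.sub_apply, Matrix.mul_diagonal, Matrix.diagonal_mul, map_sub, map_mul, map_mul]
      at h5
    have h6 : π (g.1 s t) * (π (![0, 1, 2] t) - π (![0, 1, 2] s)) = 0 := by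
      linear_combination h5
    rcases mul_eq_zero.1 h6 with h7 | h7
    · exact h7
    · exfalso
      have h8 : (1 : k) ≠ 0 := one_ne_zero
      have h9 : π 2 = 2 := map_ofNat π 2
      fin_cases s <;> fin_cases t <;> simp [-map_ofNat] at h7 hst <;>
        first
          | exact h2 (h9.symm.trans h7)
          | (rw [h9] at h7; exact h8 (by linear_combination h7))
          | (rw [h9] at h7; exact h8 (by linear_combination -h7))
  obtain ⟨y, hy⟩ := (h.isUnit hij : IsUnit (Z i j - D i j))
  set a : A := a0 * (y⁻¹ : Aˣ) with hadef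
  have ha : π a = 0 := by rw [hadef, map_mul, ha0, zero_mul]
  have haa : a * a = 0 := h.sq _ _ ha ha
  have hay : a * (Z i j - D i j) = a0 := by
    rw [← hy, hadef, mul_assoc, Units.inv_mul, mul_one]
  have hnorm : g⁻¹ * elem h a ha i j * g ∈ Ksub π := by
    have := (inferInstance : (Ksub π).Normal).conj_mem _ (elem_mem h a ha i j) g⁻¹
    simpa using this
  refine ⟨elem h a ha i j, elem_mem h a ha i j, hnorm, ?_⟩
  -- the diagonal entries
  have e1 : ∀ l, (elem h a ha i j).1 l l = 1 + a * (if j = l ∧ i = l then 1 else 0) := by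
    intro l
    change (1 + Matrix.single j i a : Matrix (Fin 3) (Fin 3) A) l l = _
    rw [Matrix.add_apply, Matrix.one_apply_eq, Matrix.single_apply]
    split_ifs <;> simp
  have e2 : ∀ l, (g⁻¹ * elem h a ha i j * g).1 l l = 1 + a * ((g⁻¹).1 l j * g.1 i l) := by
    intro l
    have h1 : (g⁻¹ * elem h a ha i j * g).1 =
        1 + (g⁻¹).1 * Matrix.single j i a * g.1 := by
      rw [Units.val_mul, Units.val_mul]
      change (g⁻¹).1 * (1 + Matrix.single j i a) * g.1 = _
      rw [mul_add, mul_one, add_mul, ← Units.val_mul, inv_mul_cancel, Units.val_one]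
    rw [h1, Matrix.add_apply, Matrix.one_apply_eq]
    congr 1
    rw [Matrix.mul_apply, Finset.sum_eq_single i]
    · rw [Matrix.mul_apply, Finset.sum_eq_single j]
      · rw [Matrix.single_apply_same]; ring
      · intro b _ hb
        rw [Matrix.single_apply_of_row_ne (Ne.symm hb)]
        ring
      · intro hh; exact absurd (Finset.mem_univ _) hh
    · intro b _ hb
      rw [Matrix.mul_apply, Finset.sum_eq_zero, zero_mul]
      intro c _
      rw [Matrix.single_apply_of_col_ne _ _ (Ne.symm hb)]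
      ring
    · intro hh; exact absurd (Finset.mem_univ _) hh
  have hZ : Z i j = (g⁻¹).1 1 j * g.1 i 1 + 2 * ((g⁻¹).1 2 j * g.1 i 2) := by
    simp only [Z, D]
    rw [Matrix.mul_apply, Fin.sum_univ_three, Matrix.mul_diagonal, Matrix.mul_diagonal,
      Matrix.mul_diagonal]
    simp
    ring
  have hD : D i j = (if j = 1 ∧ i = 1 then 1 else 0) + 2 * (if j = 2 ∧ i = 2 then 1 else 0) := by
    simp only [D]
    fin_cases i <;> fin_cases j <;> simp
  have hub : ∀ z : A, ∃ u : Aˣ, (u : A) = 1 + a * z := by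
    intro z
    have : IsUnit (1 + a * z) := by
      apply h.isUnit
      rw [map_add, map_mul, ha, map_one, zero_mul, add_zero]
      exact one_ne_zero
    exact ⟨this.unit, rfl⟩
  obtain ⟨u1, hu1⟩ := hub (D i j)
  obtain ⟨u2, hu2⟩ := hub (Z i j)
  have hsq : ∀ b c : A, (1 + a * b) * (1 + a * c) ^ 2 = 1 + a * (b + 2 * c) := by
    intro b c
    linear_combination (c ^ 2 + 2 * b * c + a * b * c ^ 2) * haa
  have c1 : h.chi θ ⟨elem h a ha i j, K_le_H (elem_mem h a ha i j)⟩ = θ u1 := by
    apply h.chi_eq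
    rw [hu1]
    change _ = (elem h a ha i j).1 1 1 * ((elem h a ha i j).1 2 2) ^ 2
    rw [e1, e1, hsq, hD]
  have c2 : h.chi θ ⟨g⁻¹ * elem h a ha i j * g, K_le_H hnorm⟩ = θ u2 := by
    apply h.chi_eq
    rw [hu2]
    change _ = (g⁻¹ * elem h a ha i j * g).1 1 1 * ((g⁻¹ * elem h a ha i j * g).1 2 2) ^ 2
    rw [e2, e2, hsq, hZ]
  rw [c1, c2]
  intro heq
  apply hθ
  have h9 : u2 = u1 * u0 := by
    apply Units.ext
    rw [Units.val_mul, hu0, hu1, hu2, ← hay]
    linear_combination (-(D i j) * (Z i j - D i j)) * haa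
  rw [h9, map_mul] at heq
  exact mul_eq_left.1 heq

end

end H327R3
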