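import Mathlib
import Pool.Agent.H327R3.GLThree
import Pool.Agent.H327R3.Comm
import Pool.Agent.H327R3.Bound

set_option autoImplicit false

namespace H327R3

open Matrix

section

variable {A : Type} [CommRing A] {π : A →+* ZMod 2}

/-- the embedding of the residue field as the kernel -/
def iota (a : A) (h2 : a + a = 0) : ZMod 2 →+ A :=
  ZMod.lift 2 ⟨(zmultiplesHom A) a, by
    simp only [zmultiplesHom_apply]
    rw [Nat.cast_ofNat, two_zsmul, h2]⟩

lemma iota_one (a : A) (h2 : a + a = 0) : iota a h2 1 = a := by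
  have := ZMod.lift_coe 2 (A := A) ⟨(zmultiplesHom A) a, by
    simp only [zmultiplesHom_apply]
    rw [Nat.cast_ofNat, two_zsmul, h2]⟩ 1
  unfold iota
  simpa using this

lemma zmod2_cases (z : ZMod 2) : z = 0 ∨ z = 1 := by revert z; decide

lemma mul_iota (h : SqZero π) (a : A) (ha : π a = 0) (h2 : a + a = 0) (r : A) (z : ZMod 2) :
    r * iota a h2 z = iota a h2 (π r * z) := by
  rcases zmod2_cases z with rfl | rfl
  · simp
  · rw [iota_one, mul_one]
    rcases zmod2_cases (π r) with hr | hr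
    · rw [hr, map_zero, h.sq _ _ hr ha]
    · rw [hr, iota_one]
      have h3 : π (r - 1) = 0 := by rw [map_sub, hr, map_one, sub_self]
      have h4 := h.sq _ _ h3 ha
      linear_combination h4

lemma pi_iota (a : A) (ha : π a = 0) (h2 : a + a = 0) (z : ZMod 2) :
    π (iota a h2 z) = 0 := by
  rcases zmod2_cases z with rfl | rfl
  · simp
  · rw [iota_one, ha]

/-- the matrix version -/
def iotaM (a : A) (h2 : a + a = 0) (X : Matrix (Fin 3) (Fin 3) (ZMod 2)) :
    Matrix (Fin 3) (Fin 3) A := X.map (iota a h2)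

lemma iotaM_add (a : A) (h2 : a + a = 0) (X Y : Matrix (Fin 3) (Fin 3) (ZMod 2)) :
    iotaM a h2 (X + Y) = iotaM a h2 X + iotaM a h2 Y := by
  ext i j
  simp [iotaM]

lemma mul_iotaM (h : SqZero π) (a : A) (ha : π a = 0) (h2 : a + a = 0)
    (P : Matrix (Fin 3) (Fin 3) A) (X : Matrix (Fin 3) (Fin 3) (ZMod 2)) :
    P * iotaM a h2 X = iotaM a h2 (π.mapMatrix P * X) := by
  ext i j
  simp only [iotaM, Matrix.mul_apply, Matrix.map_apply, map_sum, RingHom.mapMatrix_apply]
  refine Finset.sum_congr rfl fun l _ => ?_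
  exact mul_iota h a ha h2 _ _

lemma iotaM_mul (h : SqZero π) (a : A) (ha : π a = 0) (h2 : a + a = 0)
    (P : Matrix (Fin 3) (Fin 3) A) (X : Matrix (Fin 3) (Fin 3) (ZMod 2)) :
    iotaM a h2 X * P = iotaM a h2 (X * π.mapMatrix P) := by
  ext i j
  simp only [iotaM, Matrix.mul_apply, Matrix.map_apply, map_sum, RingHom.mapMatrix_apply]
  refine Finset.sum_congr rfl fun l _ => ?_
  rw [mul_comm, mul_iota h a ha h2, mul_comm]

lemma iotaM_mul_iotaM (h : SqZero π) (a : A) (ha : π a = 0) (h2 : a + a = 0)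
    (X Y : Matrix (Fin 3) (Fin 3) (ZMod 2)) :
    iotaM a h2 X * iotaM a h2 Y = 0 := by
  ext i j
  simp only [iotaM, Matrix.mul_apply, Matrix.map_apply, Matrix.zero_apply]
  refine Finset.sum_eq_zero fun l _ => ?_
  exact h.sq _ _ (pi_iota a ha h2 _) (pi_iota a ha h2 _)

/-- elements of the congruence kernel -/
def kelem (h : SqZero π) (a : A) (ha : π a = 0) (h2 : a + a = 0)
    (X : Matrix (Fin 3) (Fin 3) (ZMod 2)) : GL (Fin 3) A where
  val := 1 + iotaM a h2 X
  inv := 1 - iotaM a h2 X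
  val_inv := by
    rw [mul_sub, add_mul, add_mul, iotaM_mul_iotaM h a ha h2]
    simp
  inv_val := by
    rw [mul_add, sub_mul, sub_mul, iotaM_mul_iotaM h a ha h2]
    simp

lemma kelem_mem (h : SqZero π) (a : A) (ha : π a = 0) (h2 : a + a = 0)
    (X : Matrix (Fin 3) (Fin 3) (ZMod 2)) : kelem h a ha h2 X ∈ Ksub π := by
  rw [mem_Ksub]
  intro s t
  change π ((1 + iotaM a h2 X : Matrix (Fin 3) (Fin 3) A) s t) = _
  rw [Matrix.add_apply, map_add]
  have h1 : π (iotaM a h2 X s t) = 0 := pi_iota a ha h2 _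
  rw [h1, add_zero, Matrix.one_apply, Matrix.one_apply]
  split_ifs <;> simp

lemma kelem_add (h : SqZero π) (a : A) (ha : π a = 0) (h2 : a + a = 0)
    (X Y : Matrix (Fin 3) (Fin 3) (ZMod 2)) :
    kelem h a ha h2 (X + Y) = kelem h a ha h2 X * kelem h a ha h2 Y := by
  apply Units.ext
  change 1 + iotaM a h2 (X + Y) = (1 + iotaM a h2 X) * (1 + iotaM a h2 Y)
  rw [mul_add, add_mul, add_mul, iotaM_mul_iotaM h a ha h2, iotaM_add]
  simp
  abel

lemma kelem_surj (h : SqZero π) (a : A) (ha : π a = 0) (h2 : a + a = 0)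
    (hker : ∀ x, π x = 0 → x = 0 ∨ x = a) (x : GL (Fin 3) A) (hx : x ∈ Ksub π) :
    ∃ X, kelem h a ha h2 X = x := by
  have h1 : ∀ i j, ∃ z : ZMod 2, iota a h2 z = x.1 i j - (1 : Matrix (Fin 3) (Fin 3) A) i j := by
    intro i j
    have h3 : π (x.1 i j - (1 : Matrix (Fin 3) (Fin 3) A) i j) = 0 := by
      rw [map_sub, mem_Ksub.1 hx, Matrix.one_apply, Matrix.one_apply]
      split_ifs <;> simp
    rcases hker _ h3 with h4 | h4
    · exact ⟨0, by rw [h4, map_zero]⟩
    · exact ⟨1, by rw [h4, iota_one]⟩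
  choose X hX using h1
  refine ⟨X, ?_⟩
  apply Units.ext
  change 1 + iotaM a h2 X = x.1
  ext i j
  rw [Matrix.add_apply]
  change _ + iota a h2 (X i j) = _
  rw [hX]
  ring

lemma conj_kelem (h : SqZero π) (a : A) (ha : π a = 0) (h2 : a + a = 0)
    (X : Matrix (Fin 3) (Fin 3) (ZMod 2)) (g : GL (Fin 3) A) :
    g⁻¹ * kelem h a ha h2 X * g =
      kelem h a ha h2 (((red π g)⁻¹).1 * X * (red π g).1) := by
  apply Units.ext
  rw [Units.val_mul, Units.val_mul]
  change (g⁻¹).1 * (1 + iotaM a h2 X) * g.1 = 1 + iotaM a h2 _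
  rw [mul_add, mul_one, add_mul, ← Units.val_mul, inv_mul_cancel, Units.val_one,
    mul_iotaM h a ha h2, iotaM_mul h a ha h2, ← map_inv]
  rfl

/-- every character of the congruence kernel is fixed by some element outside of it -/
theorem exists_fix (h : SqZero π) (a : A) (ha : π a = 0) (h2 : a + a = 0)
    (hker : ∀ x, π x = 0 → x = 0 ∨ x = a)
    (hnorm : ∀ (g : GL (Fin 3) A) (k : Ksub π), g⁻¹ * (k : GL (Fin 3) A) * g ∈ Ksub π)
    (ψ : Ksub π →* ℂˣ) :
    ∃ g : GL (Fin 3) A, g ∉ Ksub π ∧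
      ∀ k : Ksub π, ψ ⟨g⁻¹ * k * g, hnorm g k⟩ = ψ k := by
  classical
  -- the additive character
  let e : Matrix (Fin 3) (Fin 3) (ZMod 2) → Ksub π := fun X =>
    ⟨kelem h a ha h2 X, kelem_mem h a ha h2 X⟩
  have he : ∀ X Y, e (X + Y) = e X * e Y := fun X Y =>
    Subtype.ext (kelem_add h a ha h2 X Y)
  have he0 : e 0 = 1 := by
    apply Subtype.ext
    apply Units.ext
    change 1 + iotaM a h2 0 = 1
    ext i j
    simp [iotaM]
  let f : Matrix (Fin 3) (Fin 3) (ZMod 2) →+ Additive ℂˣ :=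
    { toFun := fun X => Additive.ofMul (ψ (e X))
      map_zero' := by rw [he0, map_one]; rfl
      map_add' := by
        intro X Y
        rw [he, map_mul]; rfl }
  -- the matrix of `ψ`
  have hpm : ∀ i j, ∃ z : ZMod 2, f (Matrix.single i j 1) = if z = 0 then 0 else
      Additive.ofMul (-1 : ℂˣ) := by
    intro i j
    have h3 : f (Matrix.single i j 1) + f (Matrix.single i j 1) = 0 := by
      rw [← map_add, ← Matrix.single_add]
      have : (1 + 1 : ZMod 2) = 0 := by decide
      rw [this, Matrix.single_zero, map_zero]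
    have h4 : (ψ (e (Matrix.single i j 1))) * (ψ (e (Matrix.single i j 1))) = 1 := h3
    have h5 : ψ (e (Matrix.single i j 1)) = 1 ∨ ψ (e (Matrix.single i j 1)) = -1 := by
      have h6 := congrArg Units.val h4
      rw [Units.val_mul, Units.val_one] at h6
      rcases mul_self_eq_one_iff.1 h6 with h7 | h7
      · exact Or.inl (Units.ext h7)
      · exact Or.inr (Units.ext (by rw [h7]; simp))
    rcases h5 with h5 | h5
    · refine ⟨0, ?_⟩
      rw [if_pos rfl]
      change Additive.ofMul (ψ (e (Matrix.single i j 1))) = 0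
      rw [h5]; rfl
    · refine ⟨1, ?_⟩
      rw [if_neg (by decide)]
      change Additive.ofMul (ψ (e (Matrix.single i j 1))) = _
      rw [h5]
  choose β hβ using hpm
  -- the sign character
  let σ : ZMod 2 →+ Additive ℂˣ := ZMod.lift 2 ⟨(zmultiplesHom (Additive ℂˣ))
    (Additive.ofMul (-1 : ℂˣ)), by
      simp only [zmultiplesHom_apply]
      rw [Nat.cast_ofNat, two_zsmul, ← ofMul_mul, neg_mul_neg, one_mul, ofMul_one]⟩
  have hσ1 : σ 1 = Additive.ofMul (-1 : ℂˣ) := by
    have := ZMod.lift_coe 2 (A := Additive ℂˣ) ⟨(zmultiplesHom (Additive ℂˣ))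
      (Additive.ofMul (-1 : ℂˣ)), by
      simp only [zmultiplesHom_apply]
      rw [Nat.cast_ofNat, two_zsmul, ← ofMul_mul, neg_mul_neg, one_mul, ofMul_one]⟩ 1
    simpa using this
  let B : Matrix (Fin 3) (Fin 3) (ZMod 2) := fun i j => β j i
  have hf : ∀ X, f X = σ (Matrix.trace (B * X)) := by
    intro X
    let F : Matrix (Fin 3) (Fin 3) (ZMod 2) →+ Additive ℂˣ :=
      σ.comp ((Matrix.traceAddMonoidHom (Fin 3) (ZMod 2)).comp (AddMonoidHom.mulLeft B))
    have hF : ∀ X, F X = σ (Matrix.trace (B * X)) := fun X => rfl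
    have hsingle : ∀ i j (z : ZMod 2), f (Matrix.single i j z) = F (Matrix.single i j z) := by
      intro i j z
      rcases zmod2_cases z with rfl | rfl
      · rw [Matrix.single_zero, map_zero, map_zero]
      · rw [hβ, hF]
        have h7 : Matrix.trace (B * Matrix.single i j 1) = β i j := by
          rw [Matrix.trace, Finset.sum_eq_single j]
          · rw [Matrix.diag_apply, Matrix.mul_single_apply_same, mul_one]
          · intro b _ hb
            rw [Matrix.diag_apply, Matrix.mul_single_apply_of_ne _ _ _ _ _ hb]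
          · intro hh; exact absurd (Finset.mem_univ _) hh
        rw [h7]
        rcases zmod2_cases (β i j) with h8 | h8
        · rw [h8, if_pos rfl, map_zero]
        · rw [h8, if_neg (by decide), hσ1]
    rw [← hF, Matrix.matrix_eq_sum_single X, map_sum, map_sum]
    refine Finset.sum_congr rfl fun i _ => ?_
    rw [map_sum, map_sum]
    exact Finset.sum_congr rfl fun j _ => hsingle i j _
  obtain ⟨c, hc1, hcB⟩ := exists_commuting B
  obtain ⟨g, hg⟩ := h.red_surj c
  refine ⟨g, ?_, ?_⟩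
  · intro hgK
    apply hc1
    rw [← hg]
    exact hgK
  · rintro ⟨k, hk⟩
    obtain ⟨X, rfl⟩ := kelem_surj h a ha h2 hker k hk
    have h9 : (⟨g⁻¹ * kelem h a ha h2 X * g, hnorm g ⟨_, hk⟩⟩ : Ksub π) =
        e ((c⁻¹).1 * X * c.1) := by
      apply Subtype.ext
      change g⁻¹ * kelem h a ha h2 X * g = kelem h a ha h2 ((c⁻¹).1 * X * c.1)
      rw [conj_kelem, hg]
    rw [h9]
    have h10 := hf ((c⁻¹).1 * X * c.1)
    have h11 : Matrix.trace (B * ((c⁻¹).1 * X * c.1)) = Matrix.trace (B * X) := by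
      rw [← mul_assoc, Matrix.trace_mul_comm, ← mul_assoc, ← mul_assoc, hcB]
      rw [mul_assoc B, ← Units.val_mul, mul_inv_cancel, Units.val_one, mul_one]
    rw [h11, ← hf] at h10
    exact h10

end

end H327R3
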