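import Mathlib
import Pool.Agent.H327R3.StabTwo

set_option autoImplicit false

namespace H327R3

open Matrix Polynomial

section

variable (p : ℕ) [Fact p.Prime]

/-- the ring `ℤ_p / p²` -/
abbrev A2 : Type := ℤ_[p] ⧸ IsLocalRing.maximalIdeal ℤ_[p] ^ 2

lemma max_le_ker : ∀ a ∈ IsLocalRing.maximalIdeal ℤ_[p] ^ 2, (PadicInt.toZMod (p := p)) a = 0 := by
  intro a ha
  have h1 : a ∈ IsLocalRing.maximalIdeal ℤ_[p] := Ideal.pow_le_self (by norm_num) ha
  rw [← PadicInt.ker_toZMod] at h1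
  exact h1

/-- reduction modulo `p` -/
noncomputable def piP : A2 p →+* ZMod p :=
  Ideal.Quotient.lift _ (PadicInt.toZMod (p := p)) (max_le_ker p)

lemma piP_mk (x : ℤ_[p]) : piP p (Ideal.Quotient.mk _ x) = PadicInt.toZMod x := by
  unfold piP
  exact Ideal.Quotient.lift_mk _ _ _

lemma piP_mk_eq_zero {x : ℤ_[p]} :
    piP p (Ideal.Quotient.mk _ x) = 0 ↔ x ∈ IsLocalRing.maximalIdeal ℤ_[p] := by
  rw [piP_mk, ← PadicInt.ker_toZMod, RingHom.mem_ker]

lemma sqZero_piP : SqZero (piP p) where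
  surj := by
    intro z
    obtain ⟨x, hx⟩ := ZMod.ringHom_surjective (PadicInt.toZMod (p := p)) z
    exact ⟨Ideal.Quotient.mk _ x, by rw [piP_mk, hx]⟩
  sq := by
    intro x y hx hy
    obtain ⟨x, rfl⟩ := Ideal.Quotient.mk_surjective x
    obtain ⟨y, rfl⟩ := Ideal.Quotient.mk_surjective y
    rw [piP_mk_eq_zero] at hx hy
    rw [← map_mul, Ideal.Quotient.eq_zero_iff_mem, pow_two]
    exact Ideal.mul_mem_mul hx hy

instance finite_A2 : Finite (A2 p) := by
  have h1 : RingHom.ker (PadicInt.toZModPow (p := p) 2) = IsLocalRing.maximalIdeal ℤ_[p] ^ 2 := by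
    rw [PadicInt.ker_toZModPow, PadicInt.maximalIdeal_eq_span_p, Ideal.span_singleton_pow]
  have h0 : ∀ a ∈ IsLocalRing.maximalIdeal ℤ_[p] ^ 2, PadicInt.toZModPow (p := p) 2 a = 0 := by
    intro a ha
    rw [← h1] at ha
    exact RingHom.mem_ker.1 ha
  have h2 : Function.Injective (Ideal.Quotient.lift (IsLocalRing.maximalIdeal ℤ_[p] ^ 2)
      (PadicInt.toZModPow (p := p) 2) h0) := by
    rw [injective_iff_map_eq_zero]
    intro x hx
    obtain ⟨x, rfl⟩ := Ideal.Quotient.mk_surjective x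
    rw [Ideal.Quotient.lift_mk] at hx
    rw [Ideal.Quotient.eq_zero_iff_mem, ← h1]
    exact hx
  haveI : NeZero (p ^ 2) := ⟨pow_ne_zero 2 (Fact.out : p.Prime).ne_zero⟩
  exact Finite.of_injective _ h2

lemma p_ne_zero : (p : A2 p) ≠ 0 := by
  intro h
  have h1 : (Ideal.Quotient.mk (IsLocalRing.maximalIdeal ℤ_[p] ^ 2)) (p : ℤ_[p]) = 0 := by
    rw [map_natCast]; exact h
  rw [Ideal.Quotient.eq_zero_iff_mem, PadicInt.maximalIdeal_eq_span_p,
    Ideal.span_singleton_pow, Ideal.mem_span_singleton] at h1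
  obtain ⟨c, hc⟩ := h1
  have hp0 : (p : ℤ_[p]) ≠ 0 := by
    exact_mod_cast (Fact.out : p.Prime).ne_zero
  have h2 : (p : ℤ_[p]) * (p * c) = p * 1 := by
    rw [mul_one, ← mul_assoc, ← pow_two]; exact hc.symm
  have h3 := mul_left_cancel₀ hp0 h2
  have h4 : IsUnit (p : ℤ_[p]) := IsUnit.of_mul_eq_one _ h3
  exact PadicInt.p_nonunit h4

lemma piP_p : piP p (p : A2 p) = 0 := by
  rw [map_natCast]
  exact ZMod.natCast_self p

/-- existence of a representation of the large dimension for odd `p` -/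
theorem exists_large (hp2 : p ≠ 2) :
    ∃ (V : Type) (_ : AddCommGroup V) (_ : Module ℂ V)
        (ρ : Representation ℂ
          (Matrix.GeneralLinearGroup (Fin 3) (A2 p)) V),
        FiniteDimensional ℂ V ∧ Nontrivial V ∧
        (∀ W : Submodule ℂ V, (∀ g v, v ∈ W → ρ g v ∈ W) → W = ⊥ ∨ W = ⊤) ∧
        (∃ g : Matrix.GeneralLinearGroup (Fin 3) (A2 p), g ∈ Ksub (piP p) ∧ ρ g ≠ 1) ∧
        Module.finrank ℂ V * (p - 1) ^ 3 = (p ^ 3 - 1) * (p ^ 3 - p) * (p ^ 3 - p ^ 2) := by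
  classical
  have hs := sqZero_piP p
  have hπp := piP_p p
  have h2 : (2 : ZMod p) ≠ 0 := by
    intro h
    have h1 : ((2 : ℕ) : ZMod p) = 0 := by exact_mod_cast h
    rw [ZMod.natCast_eq_zero_iff] at h1
    have h3 := (Nat.prime_dvd_prime_iff_eq Fact.out Nat.prime_two).1 h1
    exact hp2 h3
  have hu : IsUnit (1 + (p : A2 p)) := by
    apply hs.isUnit
    rw [map_add, hπp, map_one, add_zero]
    exact one_ne_zero
  obtain ⟨u0, hu0⟩ := hu
  have hune : u0 ≠ 1 := by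
    intro h
    rw [h, Units.val_one] at hu0
    exact p_ne_zero p (by linear_combination -hu0)
  obtain ⟨θ, hθ⟩ := CommGroup.exists_apply_ne_one_of_hasEnoughRootsOfUnity (A2 p)ˣ ℂ hune
  haveI : Finite (ZMod p) := inferInstance
  have hst := distinguish hs θ (p : A2 p) hπp u0 hu0 hθ h2
  -- an element outside of `H`
  obtain ⟨g, hg⟩ : ∃ g : GL (Fin 3) (A2 p), g ∉ Hsub (piP p) := by
    refine ⟨⟨1 + Matrix.single 0 1 1, 1 - Matrix.single 0 1 1, ?_, ?_⟩, ?_⟩
    · rw [mul_sub, add_mul, add_mul, Matrix.single_mul_single_of_ne _ _ _ _ (by decide)]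
      simp
    · rw [mul_add, sub_mul, sub_mul, Matrix.single_mul_single_of_ne _ _ _ _ (by decide)]
      simp
    · rw [mem_Hsub]
      intro h
      have := h 0 1 (by decide)
      simp at this
  obtain ⟨x, hx, hx', hne⟩ := hst g hg
  obtain ⟨k0, hk0, hk1⟩ : ∃ (k0 : GL (Fin 3) (A2 p)) (hk0 : k0 ∈ Ksub (piP p)),
      hs.chi θ ⟨k0, K_le_H hk0⟩ ≠ 1 := by
    by_contra hcon
    push Not at hcon
    exact hne ((hcon _ hx').trans (hcon _ hx).symm)
  obtain ⟨a1, a2, a3, a4, a5⟩ := exists_irrep (Ksub (piP p)) K_le_H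
    (χ := hs.chi θ) (fun g hg => by
      obtain ⟨x, hx, hx', hne⟩ := hst g hg
      exact ⟨x, hx, hx', hne⟩) k0 hk0 hk1
  refine ⟨indSpace (Hsub (piP p)) (hs.chi θ), inferInstance, inferInstance, indRep _ _, a1, a2,
    a3, ⟨k0, hk0, a4⟩, ?_⟩
  rw [a5]
  have := hs.index_H
  rwa [Nat.card_zmod] at this

end

/-- the bound for `p = 2` -/
theorem bound_two [Fact (Nat.Prime 2)] (V : Type) [AddCommGroup V] [Module ℂ V]
    (ρ : Representation ℂ (Matrix.GeneralLinearGroup (Fin 3) (A2 2)) V)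
    [FiniteDimensional ℂ V] [Nontrivial V]
    (hirr : ∀ W : Submodule ℂ V, (∀ g v, v ∈ W → ρ g v ∈ W) → W = ⊥ ∨ W = ⊤) :
    Module.finrank ℂ V ≤ 84 := by
  classical
  have hs := sqZero_piP 2
  have hπ2 : piP 2 (2 : A2 2) = 0 := by
    have := piP_p 2
    exact_mod_cast this
  have h22 : (2 : A2 2) + 2 = 0 := by
    have := hs.sq 2 2 hπ2 hπ2
    linear_combination this
  have hker : ∀ x, piP 2 x = 0 → x = 0 ∨ x = 2 := by
    intro x hx
    obtain ⟨x, rfl⟩ := Ideal.Quotient.mk_surjective x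
    rw [piP_mk_eq_zero, PadicInt.maximalIdeal_eq_span_p, Ideal.mem_span_singleton] at hx
    obtain ⟨c, rfl⟩ := hx
    rw [map_mul, map_natCast]
    set y := Ideal.Quotient.mk (IsLocalRing.maximalIdeal ℤ_[2] ^ 2) c with hy
    rcases zmod2_cases (piP 2 y) with h | h
    · left
      have := hs.sq 2 y hπ2 h
      exact_mod_cast this
    · right
      have h3 : piP 2 (y - 1) = 0 := by rw [map_sub, h, map_one, sub_self]
      have := hs.sq 2 (y - 1) hπ2 h3
      push_cast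
      linear_combination this
  have hnorm : ∀ (g : GL (Fin 3) (A2 2)) (k : Ksub (piP 2)),
      g⁻¹ * (k : GL (Fin 3) (A2 2)) * g ∈ Ksub (piP 2) := by
    intro g k
    have := (inferInstance : (Ksub (piP 2)).Normal).conj_mem k k.2 g⁻¹
    simpa using this
  have hcomm : ∀ a ∈ Ksub (piP 2), ∀ b ∈ Ksub (piP 2), a * b = b * a := by
    intro a ha b hb
    obtain ⟨X, rfl⟩ := kelem_surj hs 2 hπ2 h22 hker a ha
    obtain ⟨Y, rfl⟩ := kelem_surj hs 2 hπ2 h22 hker b hb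
    rw [← kelem_add, ← kelem_add, add_comm]
  have hb := two_mul_finrank_le ρ hirr (Ksub (piP 2)) hnorm hcomm
    (exists_fix hs 2 hπ2 h22 hker hnorm)
  have hindex : (Ksub (piP 2)).index = 168 := by
    have h1 : (Ksub (piP 2)) = (⊥ : Subgroup (GL (Fin 3) (ZMod 2))).comap (red (piP 2)) := rfl
    rw [h1, Subgroup.index_comap_of_surjective _ hs.red_surj, Subgroup.index_bot,
      Matrix.card_GL_field]
    simp [Fin.prod_univ_succ, ZMod.card]
  rw [hindex] at hb
  omega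

/-- the polynomial -/
noncomputable def bigPoly : ℤ[X] := X ^ 3 * (X + 1) * (X ^ 2 + X + 1)

lemma dim_formula (p : ℕ) (hp : 2 ≤ p) (n : ℕ)
    (h : n * (p - 1) ^ 3 = (p ^ 3 - 1) * (p ^ 3 - p) * (p ^ 3 - p ^ 2)) :
    (n : ℤ) = bigPoly.eval (p : ℤ) := by
  have h1 : 1 ≤ p := by omega
  have h2 : 1 ≤ p ^ 3 := Nat.one_le_pow _ _ (by omega)
  have h3 : p ≤ p ^ 3 := Nat.le_self_pow (by norm_num) p
  have h4 : p ^ 2 ≤ p ^ 3 := Nat.pow_le_pow_right (by omega) (by norm_num)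
  zify [h1, h2, h3, h4] at h
  have h5 : ((p : ℤ) - 1) ^ 3 ≠ 0 := by
    apply pow_ne_zero
    have : (2 : ℤ) ≤ p := by exact_mod_cast hp
    omega
  apply mul_right_cancel₀ h5
  rw [h]
  simp only [bigPoly, eval_mul, eval_pow, eval_add, eval_X, eval_one]
  ring

end H327R3
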