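import Mathlib

set_option autoImplicit false

/-!
# Arrangements of planes `a x + b y + z = 0` in `K^3`, and their modules of logarithmic derivations

Common definitions, and the comparison of intersection lattices.
-/

namespace Pool.Agent.H327R3.Terao

open MvPolynomial

variable {K : Type} [Field K] {n : ℕ}

/-- The coefficient matrix of the forms `a_j x + b_j y + z`. -/
def mat (P : Fin n → K × K) : Matrix (Fin n) (Fin 3) K :=
  Matrix.of fun j => ![(P j).1, (P j).2, 1]

/-- The module of logarithmic derivations, exactly as in the frozen statement. -/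
noncomputable abbrev Der (A : Matrix (Fin n) (Fin 3) K) :
    Submodule (MvPolynomial (Fin 3) K) (Fin 3 → MvPolynomial (Fin 3) K) :=
  Submodule.comap (Matrix.mulVecLin (A.map MvPolynomial.C))
    (Submodule.pi Set.univ (fun i : Fin n =>
      (Ideal.span {(Matrix.mulVec (A.map MvPolynomial.C)
          (fun j => (MvPolynomial.X j : MvPolynomial (Fin 3) K))) i} :
        Submodule (MvPolynomial (Fin 3) K) (MvPolynomial (Fin 3) K))))

/-- the linear form of a point -/
noncomputable def frm (p : K × K) : MvPolynomial (Fin 3) K := C p.1 * X 0 + C p.2 * X 1 + X 2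

theorem mem_Der (P : Fin n → K × K) (v : Fin 3 → MvPolynomial (Fin 3) K) :
    v ∈ Der (mat P) ↔
      ∀ j, frm (P j) ∣ C (P j).1 * v 0 + C (P j).2 * v 1 + v 2 := by
  simp [Der, mat, frm, Submodule.mem_comap, Submodule.mem_pi, Ideal.mem_span_singleton,
    Matrix.mulVec, dotProduct, Fin.sum_univ_three]

theorem range_iso {α β γ : Type*} [PartialOrder β] [PartialOrder γ] (f : α → β) (g : α → γ)
    (h : ∀ a b, f a ≤ f b ↔ g a ≤ g b) : Nonempty (Set.range f ≃o Set.range g) := by
  classical
  have hf : ∀ x : Set.range f, f x.2.choose = x.1 := fun x => x.2.choose_spec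
  let e : Set.range f → Set.range g := fun x => ⟨g x.2.choose, ⟨_, rfl⟩⟩
  let emb : Set.range f ↪o Set.range g := OrderEmbedding.ofMapLEIff e (by
    intro a b
    show g _ ≤ g _ ↔ a.1 ≤ b.1
    rw [← h, hf, hf])
  refine ⟨RelIso.ofSurjective emb ?_⟩
  rintro ⟨_, ⟨a, rfl⟩⟩
  refine ⟨⟨f a, ⟨a, rfl⟩⟩, ?_⟩
  apply Subtype.ext
  show g _ = g a
  have := hf ⟨f a, ⟨a, rfl⟩⟩
  exact le_antisymm ((h _ _).1 this.le) ((h _ _).1 this.ge)

/-- collinearity determinant -/
def det3 (p q r : K × K) : K := (q.1 - p.1) * (r.2 - p.2) - (r.1 - p.1) * (q.2 - p.2)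

/-- closure condition -/
def Cl (P : Fin n → K × K) (s : Finset (Fin n)) (j : Fin n) : Prop :=
  j ∈ s ∨ (∃ i ∈ s, ∃ k ∈ s, i ≠ k ∧ det3 (P i) (P k) (P j) = 0) ∨
    (∃ i ∈ s, ∃ k ∈ s, ∃ m ∈ s, det3 (P i) (P k) (P m) ≠ 0)

theorem cl_iff (P : Fin n → K × K) (hP : Function.Injective P) (s : Finset (Fin n)) (j : Fin n) :
    (∀ v : Fin 3 → K, (∀ i ∈ s, (P i).1 * v 0 + (P i).2 * v 1 + v 2 = 0) →
      (P j).1 * v 0 + (P j).2 * v 1 + v 2 = 0) ↔ Cl P s j := by
  constructor
  · intro H
    by_contra hc
    simp only [Cl, not_or, not_exists, not_and, not_not] at hc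
    obtain ⟨hj, h2, h3⟩ := hc
    by_cases hs : ∃ i ∈ s, ∃ k ∈ s, i ≠ k
    · obtain ⟨i, hi, k, hk, hik⟩ := hs
      have := H ![(P i).2 - (P k).2, (P k).1 - (P i).1, (P i).1 * (P k).2 - (P i).2 * (P k).1] (by
        intro m hm
        have := h3 i hi k hk m hm
        simp only [det3] at this
        simp
        linear_combination this)
      simp at this
      apply h2 i hi k hk hik
      simp only [det3]
      linear_combination this
    · push Not at hs
      by_cases hs' : s.Nonempty
      · obtain ⟨i, hi⟩ := hs'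
        have hij : i ≠ j := by rintro rfl; exact hj hi
        have hPij : P i ≠ P j := fun h => hij (hP h)
        by_cases ha : (P i).1 = (P j).1
        · have hb : (P i).2 ≠ (P j).2 := fun hb => hPij (Prod.ext ha hb)
          have := H ![0, 1, -(P i).2] (by
            intro m hm
            rw [hs m hm i hi]
            simp)
          simp at this
          exact hb (by linear_combination -this)
        · have := H ![1, 0, -(P i).1] (by
            intro m hm
            rw [hs m hm i hi]
            simp)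
          simp at this
          exact ha (by linear_combination -this)
      · have hse : s = ∅ := Finset.not_nonempty_iff_eq_empty.1 hs'
        have := H ![0, 0, 1] (by
          intro m hm
          simp [hse] at hm)
        simp at this
  · rintro (h | ⟨i, hi, k, hk, hik, h⟩ | ⟨i, hi, k, hk, m, hm, h⟩) v hv
    · exact hv j h
    · have h1 := hv i hi
      have h2 := hv k hk
      have hPik : P i ≠ P k := fun h => hik (hP h)
      simp only [det3] at h
      by_cases ha : (P i).1 = (P k).1
      · have hb : (P i).2 ≠ (P k).2 := fun hb => hPik (Prod.ext ha hb)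
        have hb' : (P k).2 - (P i).2 ≠ 0 := sub_ne_zero.2 (Ne.symm hb)
        apply mul_left_cancel₀ hb'
        rw [mul_zero]
        linear_combination (-v 0) * h + ((P k).2 - (P j).2) * h1 + ((P j).2 - (P i).2) * h2 + 0 * ha
      · have ha' : (P k).1 - (P i).1 ≠ 0 := sub_ne_zero.2 (Ne.symm ha)
        apply mul_left_cancel₀ ha'
        rw [mul_zero]
        linear_combination (v 1) * h + ((P k).1 - (P j).1) * h1 + ((P j).1 - (P i).1) * h2
    · have h1 := hv i hi
      have h2 := hv k hk
      have h3 := hv m hm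
      have e0 : v 0 = 0 := by
        apply mul_left_cancel₀ h
        rw [mul_zero]
        simp only [det3]
        linear_combination ((P k).2 - (P m).2) * h1 + ((P m).2 - (P i).2) * h2 + ((P i).2 - (P k).2) * h3
      have e1 : v 1 = 0 := by
        apply mul_left_cancel₀ h
        rw [mul_zero]
        simp only [det3]
        linear_combination -((P k).1 - (P m).1) * h1 - ((P m).1 - (P i).1) * h2 - ((P i).1 - (P k).1) * h3
      have e2 : v 2 = 0 := by
        rw [e0, e1] at h1
        simpa using h1
      rw [e0, e1, e2]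
      simp

theorem Cl_congr (P Q : Fin n → K × K)
    (h : ∀ i j k, det3 (P i) (P j) (P k) = 0 ↔ det3 (Q i) (Q j) (Q k) = 0)
    (s : Finset (Fin n)) (j : Fin n) : Cl P s j ↔ Cl Q s j := by
  simp only [Cl, ne_eq, h]

theorem flat_le_iff (P : Fin n → K × K) (hP : Function.Injective P) (s t : Finset (Fin n)) :
    (⨅ i ∈ s, LinearMap.ker ((LinearMap.proj i : (Fin n → K) →ₗ[K] K).comp
        (Matrix.mulVecLin (mat P)))) ≤
      (⨅ i ∈ t, LinearMap.ker ((LinearMap.proj i : (Fin n → K) →ₗ[K] K).comp
        (Matrix.mulVecLin (mat P)))) ↔ ∀ j ∈ t, Cl P s j := by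
  have hmem : ∀ (u : Finset (Fin n)) (v : Fin 3 → K),
      v ∈ (⨅ i ∈ u, LinearMap.ker ((LinearMap.proj i : (Fin n → K) →ₗ[K] K).comp
        (Matrix.mulVecLin (mat P)))) ↔ ∀ i ∈ u, (P i).1 * v 0 + (P i).2 * v 1 + v 2 = 0 := by
    intro u v
    simp [Submodule.mem_iInf, mat, Matrix.mulVec, dotProduct, Fin.sum_univ_three]
  constructor
  · intro H j hj
    rw [← cl_iff P hP]
    intro v hv
    exact (hmem t v).1 (H ((hmem s v).2 hv)) j hj
  · intro H v hv
    rw [hmem] at hv ⊢
    intro j hj
    exact (cl_iff P hP s j).2 (H j hj) v hv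

theorem lattice_iso (P Q : Fin n → K × K) (hP : Function.Injective P) (hQ : Function.Injective Q)
    (h : ∀ i j k, det3 (P i) (P j) (P k) = 0 ↔ det3 (Q i) (Q j) (Q k) = 0) :
    Nonempty
        (↥(Set.range (fun s : Finset (Fin n) =>
            ⨅ i ∈ s, LinearMap.ker ((LinearMap.proj i : (Fin n → K) →ₗ[K] K).comp
              (Matrix.mulVecLin (mat P)))))
          ≃o
         ↥(Set.range (fun s : Finset (Fin n) =>
            ⨅ i ∈ s, LinearMap.ker ((LinearMap.proj i : (Fin n → K) →ₗ[K] K).comp
              (Matrix.mulVecLin (mat Q)))))) := by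
  apply range_iso
  intro s t
  rw [flat_le_iff P hP, flat_le_iff Q hQ]
  simp only [Cl_congr P Q h]

theorem mat_ne_smul (P : Fin n → K × K) (hP : Function.Injective P) (i j : Fin n) (hij : i ≠ j)
    (c : K) : mat P i ≠ c • mat P j := by
  intro h
  have h0 := congrFun h 0
  have h1 := congrFun h 1
  have h2 := congrFun h 2
  simp [mat] at h0 h1 h2
  subst h2
  apply hij
  apply hP
  exact Prod.ext (by simpa using h0) (by simpa using h1)

theorem mat_ne_zero (P : Fin n → K × K) (i : Fin n) : mat P i ≠ 0 := by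
  intro h
  have h2 := congrFun h 2
  simp [mat] at h2

end Pool.Agent.H327R3.Terao
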