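import Pool.Agent.H327R3.TeraoFree

set_option autoImplicit false

/-!
# Codes for elements of `F_11[i]` and for homogeneous polynomials
-/

namespace Pool.Agent.H327R3.Terao

open MvPolynomial

/-- codes of elements `a + b i` -/
abbrev Cd := ℕ × ℕ

def addc (a b : Cd) : Cd := ((a.1 + b.1) % 11, (a.2 + b.2) % 11)
def mulc (a b : Cd) : Cd := ((a.1 * b.1 + 10 * (a.2 * b.2)) % 11, (a.1 * b.2 + a.2 * b.1) % 11)
def subc (a b : Cd) : Cd := ((a.1 + 10 * b.1) % 11, (a.2 + 10 * b.2) % 11)
def negc (a : Cd) : Cd := ((10 * a.1) % 11, (10 * a.2) % 11)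
def isz (a : Cd) : Bool := (a.1 % 11 == 0) && (a.2 % 11 == 0)
def powc (a : Cd) : ℕ → Cd
  | 0 => (1, 0)
  | k + 1 => mulc (powc a k) a

section field

variable {K : Type} [Field K] [CharP K 11]

/-- the element coded by a pair -/
def val (i : K) (a : Cd) : K := (a.1 : K) + (a.2 : K) * i

theorem cast_mod (m : ℕ) : ((m % 11 : ℕ) : K) = (m : K) := (CharP.cast_eq_mod K 11 m).symm

theorem eleven : (11 : K) = 0 := by
  have := CharP.cast_eq_zero K 11
  exact_mod_cast this

theorem val_add (i : K) (a b : Cd) : val i (addc a b) = val i a + val i b := by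
  simp only [val, addc, cast_mod, Nat.cast_add]
  ring

theorem val_sub (i : K) (a b : Cd) : val i (subc a b) = val i a - val i b := by
  simp only [val, subc, cast_mod, Nat.cast_add, Nat.cast_mul]
  have := eleven (K := K)
  push_cast
  linear_combination (b.1 + b.2 * i : K) * this

theorem val_neg (i : K) (a : Cd) : val i (negc a) = - val i a := by
  simp only [val, negc, cast_mod, Nat.cast_mul]
  have := eleven (K := K)
  push_cast
  linear_combination (a.1 + a.2 * i : K) * this

theorem val_mul (i : K) (hi : i * i = -1) (a b : Cd) :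
    val i (mulc a b) = val i a * val i b := by
  simp only [val, mulc, cast_mod, Nat.cast_add, Nat.cast_mul]
  have := eleven (K := K)
  push_cast
  linear_combination (a.2 * b.2 : K) * this - (a.2 * b.2 : K) * hi

theorem val_pow (i : K) (hi : i * i = -1) (a : Cd) (k : ℕ) :
    val i (powc a k) = val i a ^ k := by
  induction k with
  | zero => simp [powc, val]
  | succ k ih => rw [powc, val_mul i hi, ih, pow_succ]

omit [CharP K 11] in
theorem val_zero (i : K) : val i (0, 0) = 0 := by simp [val]

theorem sq_add_sq : ∀ a b : ZMod 11, a * a + b * b = 0 → a = 0 ∧ b = 0 := by decide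

theorem val_eq_zero (i : K) (hi : i * i = -1) (a : Cd) : val i a = 0 ↔ isz a = true := by
  constructor
  · intro h
    simp only [val] at h
    have h1 : ((a.1 * a.1 + a.2 * a.2 : ℕ) : K) = 0 := by
      push_cast
      linear_combination ((a.1 : K) - a.2 * i) * h + (a.2 * a.2 : K) * hi
    have h2 : ((a.1 * a.1 + a.2 * a.2 : ℕ) : ZMod 11) = 0 := by
      rw [CharP.cast_eq_zero_iff (ZMod 11) 11]
      exact (CharP.cast_eq_zero_iff K 11 _).1 h1
    push_cast at h2
    obtain ⟨e1, e2⟩ := sq_add_sq _ _ h2
    rw [CharP.cast_eq_zero_iff (ZMod 11) 11] at e1 e2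
    simp only [isz, Bool.and_eq_true, beq_iff_eq]
    exact ⟨Nat.mod_eq_zero_of_dvd e1, Nat.mod_eq_zero_of_dvd e2⟩
  · intro h
    simp only [isz, Bool.and_eq_true, beq_iff_eq] at h
    have e1 : (a.1 : K) = 0 := (CharP.cast_eq_zero_iff K 11 _).2 (Nat.dvd_of_mod_eq_zero h.1)
    have e2 : (a.2 : K) = 0 := (CharP.cast_eq_zero_iff K 11 _).2 (Nat.dvd_of_mod_eq_zero h.2)
    simp [val, e1, e2]

end field

/-! ## binary and ternary forms as lists -/

section forms

variable {R : Type} [CommRing R]

/-- `[c_0, ..., c_m]` is `Σ c_j x^j y^(m-j)` -/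
def evF (κ : Cd → R) (x y : R) : List Cd → R
  | [] => 0
  | c :: l => κ c * y ^ l.length + x * evF κ x y l

/-- `[l_0, ..., l_d]` is `Σ z^k l_k(x, y)` -/
def evG (κ : Cd → R) (x y z : R) : List (List Cd) → R
  | [] => 0
  | l :: L => evF κ x y l + z * evG κ x y z L

def mulAux (a b : Cd) : Cd → List Cd → List Cd
  | p, [] => [p]
  | p, c :: l => addc p (mulc b c) :: mulAux a b (mulc a c) l

theorem length_mulAux (a b : Cd) (l : List Cd) : ∀ p, (mulAux a b p l).length = l.length + 1 := by
  induction l with
  | nil => intro p; rfl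
  | cons c l ih => intro p; simp [mulAux, ih]

theorem evF_mulAux (κ : Cd → R) (x y : R) (a b : Cd)
    (hadd : ∀ u v, κ (addc u v) = κ u + κ v) (hmul : ∀ u v, κ (mulc u v) = κ u * κ v)
    (l : List Cd) : ∀ p, evF κ x y (mulAux a b p l) =
      κ p * y ^ l.length + (κ a * x + κ b * y) * evF κ x y l := by
  induction l with
  | nil => intro p; simp [mulAux, evF]
  | cons c l ih =>
    intro p
    rw [mulAux, evF, ih, length_mulAux, hadd, hmul, hmul, evF, List.length_cons]
    ring

theorem evF_zipWith (κ : Cd → R) (x y : R)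
    (hadd : ∀ u v, κ (addc u v) = κ u + κ v) (l : List Cd) :
    ∀ m : List Cd, l.length = m.length →
      evF κ x y (List.zipWith addc l m) = evF κ x y l + evF κ x y m := by
  induction l with
  | nil =>
    intro m hm
    cases m with
    | nil => simp [evF]
    | cons => simp at hm
  | cons c l ih =>
    intro m hm
    cases m with
    | nil => simp at hm
    | cons e m =>
      simp only [List.length_cons, Nat.add_right_cancel_iff] at hm
      simp only [List.zipWith_cons_cons, evF, ih m hm, hadd, List.length_zipWith, hm, min_self]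
      ring

/-- substitution `z = a x + b y` -/
def red (a b : Cd) : List (List Cd) → List Cd
  | [] => []
  | l :: L => List.zipWith addc l (mulAux a b (0, 0) (red a b L))

def shape : List (List Cd) → Bool
  | [] => true
  | l :: L => (l.length == L.length + 1) && shape L

theorem red_spec (κ : Cd → R) (x y : R) (a b : Cd)
    (hadd : ∀ u v, κ (addc u v) = κ u + κ v) (hmul : ∀ u v, κ (mulc u v) = κ u * κ v)
    (h0 : κ (0, 0) = 0) (L : List (List Cd)) (hL : shape L = true) :
    (red a b L).length = L.length ∧
      evF κ x y (red a b L) = evG κ x y (κ a * x + κ b * y) L := by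
  induction L with
  | nil => simp [red, evF, evG]
  | cons l L ih =>
    simp only [shape, Bool.and_eq_true, beq_iff_eq] at hL
    obtain ⟨hl, hL⟩ := hL
    obtain ⟨ih1, ih2⟩ := ih hL
    have hlen : l.length = (mulAux a b (0, 0) (red a b L)).length := by
      rw [length_mulAux, ih1, hl]
    constructor
    · simp [red, length_mulAux, ih1, hl]
    · rw [red, evF_zipWith κ x y hadd l _ hlen, evF_mulAux κ x y a b hadd hmul, ih2, h0, evG]
      ring

theorem evG_sub_dvd (κ : Cd → R) (x y z z' : R) (L : List (List Cd)) :
    z - z' ∣ evG κ x y z L - evG κ x y z' L := by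
  induction L with
  | nil => simp [evG]
  | cons l L ih =>
    have e : evG κ x y z (l :: L) - evG κ x y z' (l :: L) =
        (z - z') * evG κ x y z L + z' * (evG κ x y z L - evG κ x y z' L) := by
      simp only [evG]; ring
    rw [e]
    exact dvd_add (Dvd.intro _ rfl) (ih.mul_left _)

/-- check `a l + b m = 0` coefficientwise -/
def chk (a b : Cd) : List Cd → List Cd → Bool
  | [], [] => true
  | c :: l, e :: m => isz (addc (mulc a c) (mulc b e)) && chk a b l m
  | _, _ => false

theorem chk_spec (κ : Cd → R) (x y : R) (a b : Cd)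
    (hadd : ∀ u v, κ (addc u v) = κ u + κ v) (hmul : ∀ u v, κ (mulc u v) = κ u * κ v)
    (hz : ∀ u, isz u = true → κ u = 0) (l : List Cd) :
    ∀ m, chk a b l m = true → l.length = m.length ∧
      κ a * evF κ x y l + κ b * evF κ x y m = 0 := by
  induction l with
  | nil =>
    intro m hm
    cases m with
    | nil => simp [evF]
    | cons => simp [chk] at hm
  | cons c l ih =>
    intro m hm
    cases m with
    | nil => simp [chk] at hm
    | cons e m =>
      simp only [chk, Bool.and_eq_true] at hm
      obtain ⟨h1, h2⟩ := ih m hm.2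
      have h3 := hz _ hm.1
      rw [hadd, hmul, hmul] at h3
      refine ⟨by simp [h1], ?_⟩
      simp only [evF, h1]
      linear_combination (y ^ m.length) * h3 + x * h2

/-- The full check for one form and one pair of components. -/
def chkD (F G : List (List Cd)) (p : Cd × Cd) : Bool :=
  chk p.1 p.2 (red (negc p.1) (negc p.2) F) (red (negc p.1) (negc p.2) G)

end forms

section poly

variable {K : Type} [Field K] [CharP K 11]

/-- the ternary form over `K` -/
noncomputable def pol (i : K) (L : List (List Cd)) : MvPolynomial (Fin 3) K :=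
  evG (fun c => C (val i c)) (X 0) (X 1) (X 2) L

theorem chkD_spec (i : K) (hi : i * i = -1) (F G : List (List Cd)) (hF : shape F = true)
    (hG : shape G = true) (p : Cd × Cd) (h : chkD F G p = true) :
    frm (val i p.1, val i p.2) ∣ C (val i p.1) * pol i F + C (val i p.2) * pol i G := by
  set κ : Cd → MvPolynomial (Fin 3) K := fun c => C (val i c) with hκ
  have hadd : ∀ u v, κ (addc u v) = κ u + κ v := by
    intro u v; simp only [hκ, val_add, map_add]
  have hmul : ∀ u v, κ (mulc u v) = κ u * κ v := by
    intro u v; simp only [hκ, val_mul i hi, map_mul]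
  have h0 : κ (0, 0) = 0 := by simp only [hκ, val_zero, map_zero]
  have hz : ∀ u, isz u = true → κ u = 0 := by
    intro u hu; simp only [hκ, (val_eq_zero i hi u).2 hu, map_zero]
  have hneg : ∀ u, κ (negc u) = - κ u := by
    intro u; simp only [hκ, val_neg, map_neg]
  obtain ⟨_, h2⟩ := chk_spec κ (X 0) (X 1) _ _ hadd hmul hz _ _ h
  rw [(red_spec κ (X 0) (X 1) _ _ hadd hmul h0 F hF).2,
    (red_spec κ (X 0) (X 1) _ _ hadd hmul h0 G hG).2] at h2
  set z' : MvPolynomial (Fin 3) K := κ (negc p.1) * X 0 + κ (negc p.2) * X 1 with hz'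
  have hfr : frm (val i p.1, val i p.2) = X 2 - z' := by
    rw [hz', hneg, hneg]
    simp only [frm, hκ]
    ring
  have d1 := evG_sub_dvd κ (X 0) (X 1) (X 2) z' F
  have d2 := evG_sub_dvd κ (X 0) (X 1) (X 2) z' G
  rw [hfr]
  have e : C (val i p.1) * pol i F + C (val i p.2) * pol i G =
      κ p.1 * (evG κ (X 0) (X 1) (X 2) F - evG κ (X 0) (X 1) z' F) +
      κ p.2 * (evG κ (X 0) (X 1) (X 2) G - evG κ (X 0) (X 1) z' G) := by
    simp only [pol]
    linear_combination h2
  rw [e]
  exact dvd_add (d1.mul_left _) (d2.mul_left _)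

omit [CharP K 11] in
theorem totalDegree_evF (κ : Cd → K) (l : List Cd) :
    (evF (fun c => C (κ c)) (X 0 : MvPolynomial (Fin 3) K) (X 1) l).totalDegree ≤ l.length - 1 := by
  induction l with
  | nil => simp [evF]
  | cons c l ih =>
    simp only [evF]
    refine (totalDegree_add _ _).trans (max_le ?_ ?_)
    · refine (totalDegree_mul _ _).trans ?_
      rw [totalDegree_C, totalDegree_X_pow]
      simp
    · rcases l with _ | ⟨e, l⟩
      · simp [evF]
      · refine (totalDegree_mul _ _).trans ?_
        rw [totalDegree_X]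
        simp only [List.length_cons] at ih ⊢
        omega

theorem totalDegree_pol (i : K) (L : List (List Cd)) (hL : shape L = true) :
    (pol i L).totalDegree ≤ L.length - 1 := by
  unfold pol
  induction L with
  | nil => simp [evG]
  | cons l L ih =>
    simp only [shape, Bool.and_eq_true, beq_iff_eq] at hL
    simp only [evG]
    refine (totalDegree_add _ _).trans (max_le ?_ ?_)
    · refine (totalDegree_evF (val i) l).trans ?_
      simp [hL.1]
    · rcases L with _ | ⟨e, L⟩
      · simp [evG]
      · refine (totalDegree_mul _ _).trans ?_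
        rw [totalDegree_X]
        have := ih hL.2
        simp only [List.length_cons] at this ⊢
        omega

/-- value of a binary form at a coded point -/
def evFc (x y : Cd) : List Cd → Cd
  | [] => (0, 0)
  | c :: l => addc (mulc c (powc y l.length)) (mulc x (evFc x y l))

theorem evFc_spec (i : K) (hi : i * i = -1) (x y : Cd) (l : List Cd) :
    val i (evFc x y l) = evF (val i) (val i x) (val i y) l := by
  induction l with
  | nil => simp [evFc, evF, val_zero]
  | cons c l ih => rw [evFc, val_add, val_mul i hi, val_mul i hi, val_pow i hi, ih, evF]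

theorem eval_pol (i : K) (x y : K) (L : List (List Cd)) :
    MvPolynomial.eval (![x, y, 0] : Fin 3 → K) (pol i L) = evF (val i) x y L.headI := by
  have h1 : ∀ l : List Cd, MvPolynomial.eval (![x, y, 0] : Fin 3 → K)
      (evF (fun c => C (val i c)) (X 0) (X 1) l) = evF (val i) x y l := by
    intro l
    induction l with
    | nil => simp [evF]
    | cons c l ih => simp [evF, ih]
  cases L with
  | nil =>
    simp only [pol, evG, map_zero]
    rfl
  | cons l L => simp [pol, evG, h1, List.headI]

end poly

end Pool.Agent.H327R3.Terao
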