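import Pool.Agent.H327R3.TeraoCode

set_option autoImplicit false

/-!
Data: two arrangements of 27 planes over `F_11[i]`, with the same intersection lattice,
the two derivations of degree 13 of the first one, and the finite checks.
-/

namespace Pool.Agent.H327R3.Terao

/-- pairs (point of the first arrangement, point of the second arrangement) -/
def zl : List ((Cd × Cd) × (Cd × Cd)) :=
  [(((0,0), (0,0)), ((0,0), (0,0))),
   (((1,0), (0,0)), ((1,0), (0,0))),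
   (((0,0), (1,0)), ((0,0), (1,0))),
   (((3,9), (2,9)), ((10,0), (5,0))),
   (((0,10), (0,0)), ((8,0), (0,0))),
   (((8,7), (0,0)), ((7,0), (0,0))),
   (((0,0), (5,10)), ((0,0), (9,0))),
   (((2,8), (1,8)), ((2,0), (3,0))),
   (((1,10), (0,10)), ((7,0), (7,0))),
   (((5,8), (9,6)), ((9,0), (4,0))),
   (((6,0), (10,6)), ((6,0), (2,0))),
   (((0,0), (0,4)), ((0,0), (3,0))),
   (((3,8), (0,0)), ((3,0), (0,0))),
   (((0,0), (10,0)), ((0,0), (8,0))),
   (((0,2), (3,0)), ((4,0), (6,0))),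
   (((9,4), (6,0)), ((8,0), (7,0))),
   (((4,0), (1,0)), ((10,0), (1,0))),
   (((7,7), (6,7)), ((6,0), (4,0))),
   (((0,0), (2,8)), ((0,0), (7,0))),
   (((1,5), (0,9)), ((9,0), (7,0))),
   (((4,6), (7,7)), ((1,0), (5,0))),
   (((6,10), (0,0)), ((9,0), (0,0))),
   (((2,0), (0,0)), ((2,0), (0,0))),
   (((0,0), (6,8)), ((0,0), (10,0))),
   (((1,9), (6,1)), ((5,0), (4,0))),
   (((8,1), (2,3)), ((2,0), (9,0))),
   (((5,0), (4,0)), ((9,0), (2,0)))]

def F1 : List (List Cd) :=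
  [[(0,0), (0,0), (0,0), (0,0), (0,0), (0,0), (8,0), (9,0), (5,4), (3,9), (2,8), (8,3), (2,5), (9,4)],
   [(0,0), (0,0), (0,0), (0,0), (0,0), (10,0), (2,4), (8,6), (4,6), (4,10), (3,2), (4,5), (8,10)],
   [(0,0), (0,0), (0,0), (0,0), (10,5), (10,1), (6,0), (6,1), (3,7), (0,9), (4,8), (6,0)],
   [(0,0), (0,0), (0,0), (5,9), (6,9), (8,7), (3,3), (8,2), (3,1), (3,1), (9,2)],
   [(0,0), (0,0), (1,7), (7,1), (2,0), (8,10), (5,5), (10,6), (3,3), (8,7)],
   [(0,0), (1,0), (3,1), (6,9), (8,2), (7,8), (3,6), (6,6), (4,8)],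
   [(8,8), (2,4), (9,5), (2,3), (7,0), (7,2), (1,0), (2,6)],
   [(6,3), (6,10), (7,1), (7,2), (10,8), (6,8), (2,2)],
   [(6,1), (10,9), (0,3), (3,7), (5,10), (7,8)],
   [(7,9), (6,1), (10,9), (3,4), (4,9)],
   [(4,0), (8,1), (0,8), (0,9)],
   [(7,2), (6,10), (4,3)],
   [(2,0), (10,6)],
   [(0,6)]]

def G1 : List (List Cd) :=
  [[(2,6), (1,9), (8,0), (7,6), (0,9), (8,6), (1,0), (0,0), (0,0), (0,0), (0,0), (0,0), (0,0), (0,0)],
   [(3,8), (2,5), (2,9), (1,6), (6,6), (3,7), (9,5), (0,0), (0,0), (0,0), (0,0), (0,0), (0,0)],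
   [(10,10), (6,3), (4,6), (3,10), (1,1), (1,5), (5,9), (0,0), (0,0), (0,0), (0,0), (0,0)],
   [(10,3), (3,7), (7,6), (2,4), (1,6), (9,6), (6,2), (0,0), (0,0), (0,0), (0,0)],
   [(6,4), (2,1), (2,8), (9,2), (5,8), (0,3), (5,7), (0,0), (0,0), (0,0)],
   [(5,10), (9,5), (2,5), (7,2), (6,3), (10,6), (10,10), (0,0), (0,0)],
   [(5,7), (10,1), (3,5), (7,8), (3,10), (4,0), (0,6), (0,0)],
   [(6,4), (0,3), (3,4), (3,5), (6,4), (0,3), (8,5)],
   [(3,1), (8,5), (6,0), (8,6), (2,5), (9,8)],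
   [(4,5), (10,6), (7,3), (9,5), (3,3)],
   [(4,6), (7,6), (10,3), (10,1)],
   [(8,7), (9,7), (1,6)],
   [(3,10), (10,8)],
   [(8,7)]]

def F2 : List (List Cd) :=
  [[(0,0), (0,0), (0,0), (0,0), (0,0), (0,0), (3,4), (1,4), (9,0), (9,0), (6,0), (6,4), (6,10), (1,7)],
   [(0,0), (0,0), (0,0), (0,0), (0,0), (1,5), (2,8), (8,3), (9,10), (4,10), (8,4), (7,9), (3,4)],
   [(0,0), (0,0), (0,0), (0,0), (4,0), (10,8), (2,2), (3,0), (7,2), (6,10), (8,9), (4,9)],
   [(0,0), (0,0), (0,0), (7,10), (0,2), (3,4), (7,4), (9,1), (9,9), (7,3), (7,3)],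
   [(0,0), (0,0), (1,10), (3,1), (10,3), (9,6), (9,0), (3,5), (0,5), (6,6)],
   [(0,0), (10,6), (0,6), (1,9), (10,6), (3,9), (0,0), (10,0), (6,2)],
   [(10,7), (5,4), (4,4), (0,7), (1,8), (10,8), (7,10), (7,9)],
   [(6,1), (9,10), (0,7), (0,6), (0,8), (7,2), (7,7)],
   [(7,6), (7,9), (1,6), (6,1), (3,5), (1,10)],
   [(2,6), (10,5), (3,9), (6,7), (4,4)],
   [(2,4), (3,2), (2,0), (4,1)],
   [(3,0), (0,8), (3,3)],
   [(0,1), (4,3)],
   [(8,0)]]

def G2 : List (List Cd) :=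
  [[(3,10), (4,1), (0,0), (9,9), (7,0), (6,5), (0,0), (1,0), (0,0), (0,0), (0,0), (0,0), (0,0), (0,0)],
   [(7,5), (7,2), (5,10), (5,5), (10,5), (3,8), (3,3), (0,10), (0,0), (0,0), (0,0), (0,0), (0,0)],
   [(1,10), (4,10), (1,8), (5,3), (8,3), (2,8), (3,8), (10,7), (0,0), (0,0), (0,0), (0,0)],
   [(1,5), (5,1), (7,7), (10,0), (5,10), (6,8), (9,7), (2,0), (0,0), (0,0), (0,0)],
   [(1,2), (3,4), (1,8), (8,4), (1,2), (10,2), (6,6), (9,6), (0,0), (0,0)],
   [(6,8), (0,8), (9,5), (2,5), (6,5), (5,4), (9,1), (9,1), (0,0)],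
   [(9,7), (8,0), (5,2), (2,8), (5,5), (8,6), (2,8), (2,9)],
   [(5,9), (5,9), (4,3), (10,7), (3,4), (8,2), (1,0)],
   [(4,0), (2,1), (6,4), (7,10), (1,1), (7,1)],
   [(3,6), (9,1), (3,6), (6,5), (9,9)],
   [(0,0), (0,2), (9,0), (2,10)],
   [(9,5), (7,1), (5,2)],
   [(4,4), (1,4)],
   [(2,6)]]

def tl : List Cd :=
  [(0,0), (0,1), (4,9), (8,10), (5,6), (7,3), (3,10), (7,9), (6,6), (8,2), (4,3), (3,2)]

def detc (p q r : Cd × Cd) : Cd :=
  subc (mulc (subc q.1 p.1) (subc r.2 p.2)) (mulc (subc r.1 p.1) (subc q.2 p.2))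

def checkCol : Bool :=
  zl.all fun p => zl.all fun q => zl.all fun r =>
    (isz (detc p.1 q.1 r.1)) == (isz (detc p.2 q.2 r.2))

theorem checkCol_true : checkCol = true := by decide +kernel

theorem shape_F1 : shape F1 = true := by decide +kernel
theorem shape_G1 : shape G1 = true := by decide +kernel
theorem shape_F2 : shape F2 = true := by decide +kernel
theorem shape_G2 : shape G2 = true := by decide +kernel
theorem length_F1 : F1.length = 14 := by decide +kernel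
theorem length_G1 : G1.length = 14 := by decide +kernel
theorem length_F2 : F2.length = 14 := by decide +kernel
theorem length_G2 : G2.length = 14 := by decide +kernel

theorem check1 : (zl.all fun p => chkD F1 G1 p.1) = true := by decide +kernel
theorem check2 : (zl.all fun p => chkD F2 G2 p.1) = true := by decide +kernel

theorem check3 : isz (subc (mulc (evFc (1,0) (0,1) F1.headI) (evFc (1,0) (0,1) G2.headI))
    (mulc (evFc (1,0) (0,1) G1.headI) (evFc (1,0) (0,1) F2.headI))) = false := by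
  decide +kernel

theorem zl_len : zl.length = 27 := by decide +kernel
theorem tl_len : tl.length = 12 := by decide +kernel

def pz (j : Fin 27) : (Cd × Cd) × (Cd × Cd) := zl.get (j.cast zl_len.symm)
def tz (j : Fin 12) : Cd := tl.get (j.cast tl_len.symm)

theorem pz_mem (j : Fin 27) : pz j ∈ zl := List.get_mem _ _

theorem injA : ∀ j k : Fin 27, isz (subc (pz j).1.1 (pz k).1.1) = true →
    isz (subc (pz j).1.2 (pz k).1.2) = true → j = k := by decide +kernel

theorem injB : ∀ j k : Fin 27, isz (subc (pz j).2.1 (pz k).2.1) = true →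
    isz (subc (pz j).2.2 (pz k).2.2) = true → j = k := by decide +kernel

theorem injT : ∀ j k : Fin 12, isz (subc (tz j) (tz k)) = true → j = k := by decide +kernel

theorem realB : ∀ j : Fin 27, (pz j).2.1.2 = 0 ∧ (pz j).2.2.2 = 0 := by decide +kernel

theorem zeroB : (pz 0).2 = ((0, 0), (0, 0)) := by decide +kernel

theorem checkT : ∀ m : Fin 12, ∃ j : Fin 27,
    (isz (pz j).2.1 && isz (pz j).2.2) = false ∧
    isz (addc (mulc (pz j).2.1 (tz m))
      (mulc (pz j).2.2 (addc (1, 0) (mulc (0, 1) (tz m))))) = true := by decide +kernel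

end Pool.Agent.H327R3.Terao
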