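import Pool.Agent.H327R3.TeraoNonFree

set_option autoImplicit false

/-!
# A freeness criterion (Saito)
-/

namespace Pool.Agent.H327R3.Terao

open MvPolynomial

variable {K : Type} [Field K] {n : ℕ}

theorem frm_hom (p : K × K) : (frm p).IsHomogeneous 1 := by
  unfold frm
  refine IsHomogeneous.add (IsHomogeneous.add ?_ ?_) (isHomogeneous_X _ _)
  · simpa using (isHomogeneous_C (Fin 3) p.1).mul (isHomogeneous_X K (0 : Fin 3))
  · simpa using (isHomogeneous_C (Fin 3) p.2).mul (isHomogeneous_X K (1 : Fin 3))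

theorem frm_ne_zero (p : K × K) : frm p ≠ 0 := by
  intro h
  have := congrArg (MvPolynomial.eval (![0, 0, 1] : Fin 3 → K)) h
  simp [frm] at this

theorem frm_irreducible (p : K × K) : Irreducible (frm p) := by
  apply irreducible_of_totalDegree_eq_one
  · exact (frm_hom p).totalDegree (frm_ne_zero p)
  · intro x hx
    have := hx (Finsupp.single 2 1)
    have h1 : (frm p).coeff (Finsupp.single 2 1) = 1 := by
      simp [frm, coeff_C_mul, coeff_X]
      simp [Finsupp.single_left_inj]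
    rw [h1] at this
    exact isUnit_of_dvd_one this

theorem frm_not_dvd {p q : K × K} (h : p ≠ q) : ¬ frm p ∣ frm q := by
  rintro ⟨r, hr⟩
  by_cases ha : p.1 = q.1
  · have hb : p.2 ≠ q.2 := fun hb => h (Prod.ext ha hb)
    have := congrArg (MvPolynomial.eval (![0, 1, -p.2] : Fin 3 → K)) hr
    simp [frm] at this
    exact hb (by linear_combination -this)
  · have := congrArg (MvPolynomial.eval (![1, 0, -p.1] : Fin 3 → K)) hr
    simp [frm] at this
    exact ha (by linear_combination -this)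

theorem QQ_dvd (P : Fin n → K × K) (hP : Function.Injective P) (z : MvPolynomial (Fin 3) K)
    (h : ∀ j, frm (P j) ∣ z) : QQ P ∣ z := by
  unfold QQ
  apply Fintype.prod_dvd_of_isRelPrime
  · intro i j hij
    exact (frm_irreducible _).isRelPrime_iff_not_dvd.2 (frm_not_dvd fun e => hij (hP e))
  · exact h

theorem QQ_hom (P : Fin n → K × K) : (QQ P).IsHomogeneous n := by
  have := MvPolynomial.IsHomogeneous.prod (Finset.univ : Finset (Fin n)) (fun j => frm (P j))
    (fun _ => 1) (fun j _ => frm_hom (P j))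
  simpa [QQ] using this

theorem QQ_ne_zero (P : Fin n → K × K) : QQ P ≠ 0 :=
  Finset.prod_ne_zero_iff.2 fun j _ => frm_ne_zero (P j)

/-- the determinant of three vector fields -/
noncomputable def dt (u v w : Fin 3 → MvPolynomial (Fin 3) K) : MvPolynomial (Fin 3) K :=
  u 0 * (v 1 * w 2 - v 2 * w 1) - u 1 * (v 0 * w 2 - v 2 * w 0) + u 2 * (v 0 * w 1 - v 1 * w 0)

theorem QQ_dvd_dt (P : Fin n → K × K) (hP : Function.Injective P)
    {u v w : Fin 3 → MvPolynomial (Fin 3) K} (hu : u ∈ Der (mat P)) (hv : v ∈ Der (mat P))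
    (hw : w ∈ Der (mat P)) : QQ P ∣ dt u v w := by
  apply QQ_dvd P hP
  intro j
  rw [mem_Der] at hu hv hw
  have e : dt u v w = (C (P j).1 * u 0 + C (P j).2 * u 1 + u 2) * (v 0 * w 1 - v 1 * w 0)
      - (C (P j).1 * v 0 + C (P j).2 * v 1 + v 2) * (u 0 * w 1 - u 1 * w 0)
      + (C (P j).1 * w 0 + C (P j).2 * w 1 + w 2) * (u 0 * v 1 - u 1 * v 0) := by
    unfold dt; ring
  rw [e]
  exact dvd_add (dvd_sub ((hu j).mul_right _) ((hv j).mul_right _)) ((hw j).mul_right _)

theorem free_of (P : Fin n → K × K) (hP : Function.Injective P)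
    (f1 g1 f2 g2 : MvPolynomial (Fin 3) K) (d : ℕ) (hn : n = 2 * d + 1)
    (hf1 : f1.totalDegree ≤ d) (hg1 : g1.totalDegree ≤ d)
    (hf2 : f2.totalDegree ≤ d) (hg2 : g2.totalDegree ≤ d)
    (h1 : (![f1, g1, 0] : Fin 3 → MvPolynomial (Fin 3) K) ∈ Der (mat P))
    (h2 : (![f2, g2, 0] : Fin 3 → MvPolynomial (Fin 3) K) ∈ Der (mat P))
    (hne : f1 * g2 - g1 * f2 ≠ 0) :
    Module.Free (MvPolynomial (Fin 3) K) (Der (mat P)) := by
  -- the determinant is a nonzero constant times `Q`
  obtain ⟨q, hq⟩ := QQ_dvd_dt P hP (eul_mem P) h1 h2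
  have hdt : dt eul ![f1, g1, 0] ![f2, g2, 0] = X 2 * (f1 * g2 - g1 * f2) := by
    simp [dt, eul]
  rw [hdt] at hq
  have hX2 : (X 2 : MvPolynomial (Fin 3) K) ≠ 0 := X_ne_zero 2
  have hq0 : q ≠ 0 := by
    rintro rfl
    rw [mul_zero] at hq
    exact (mul_ne_zero hX2 hne) hq
  have hdeg : q.totalDegree = 0 := by
    have e1 : (QQ P * q).totalDegree = n + q.totalDegree := by
      rw [totalDegree_mul_of_isDomain (QQ_ne_zero P) hq0, (QQ_hom P).totalDegree (QQ_ne_zero P)]
    have e2 : (X 2 * (f1 * g2 - g1 * f2)).totalDegree ≤ 1 + (d + d) := by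
      refine (totalDegree_mul _ _).trans (add_le_add (by rw [totalDegree_X]) ?_)
      refine (totalDegree_sub _ _).trans (max_le ?_ ?_)
      · exact (totalDegree_mul _ _).trans (add_le_add hf1 hg2)
      · exact (totalDegree_mul _ _).trans (add_le_add hg1 hf2)
    rw [hq, e1] at e2
    omega
  obtain ⟨c, rfl⟩ : ∃ c, q = C c := ⟨_, (totalDegree_eq_zero_iff_eq_C (p := q)).mp hdeg⟩
  have hc : c ≠ 0 := by
    rintro rfl
    simp at hq0
  -- the basis
  let B : Fin 3 → Der (mat P) := ![⟨eul, eul_mem P⟩, ⟨_, h1⟩, ⟨_, h2⟩]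
  let L := Fintype.linearCombination (MvPolynomial (Fin 3) K) B
  have hL : ∀ v : Fin 3 → MvPolynomial (Fin 3) K, (L v).1 =
      ![v 0 * X 0 + v 1 * f1 + v 2 * f2, v 0 * X 1 + v 1 * g1 + v 2 * g2, v 0 * X 2] := by
    intro v
    funext i
    simp only [L, Fintype.linearCombination_apply, Fin.sum_univ_three]
    fin_cases i <;> simp [B, Matrix.vecHead, Matrix.vecTail, eul]
  refine Module.Free.of_equiv (LinearEquiv.ofBijective L ⟨?_, ?_⟩)
  · rw [← LinearMap.ker_eq_bot, LinearMap.ker_eq_bot']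
    intro v hv
    have h3 := hL v
    rw [hv] at h3
    have e0 := congrFun h3 0
    have e1 := congrFun h3 1
    have e2 := congrFun h3 2
    simp at e0 e1 e2
    rw [e2] at e0 e1
    have a1 : v 1 = 0 := by
      apply mul_right_cancel₀ hne
      rw [zero_mul]
      linear_combination -g2 * e0 + f2 * e1
    have a2 : v 2 = 0 := by
      apply mul_right_cancel₀ hne
      rw [zero_mul]
      linear_combination g1 * e0 - f1 * e1
    funext i
    fin_cases i
    · exact e2
    · exact a1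
    · exact a2
  · rintro ⟨u, hu⟩
    obtain ⟨p0, hp0⟩ := QQ_dvd_dt P hP hu h1 h2
    obtain ⟨p1, hp1⟩ := QQ_dvd_dt P hP (eul_mem P) hu h2
    obtain ⟨p2, hp2⟩ := QQ_dvd_dt P hP (eul_mem P) h1 hu
    have hCc : (C c⁻¹ : MvPolynomial (Fin 3) K) * C c = 1 := by
      rw [← C_mul, inv_mul_cancel₀ hc, C_1]
    refine ⟨![C c⁻¹ * p0, C c⁻¹ * p1, C c⁻¹ * p2], ?_⟩
    apply Subtype.ext
    rw [hL]
    simp [dt, eul] at hp0 hp1 hp2
    have k0 : QQ P * (p0 * X 0 + p1 * f1 + p2 * f2) = QQ P * (C c * u 0) := by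
      linear_combination (-X 0) * hp0 - f1 * hp1 - f2 * hp2 + (u 0) * hq
    have k1 : QQ P * (p0 * X 1 + p1 * g1 + p2 * g2) = QQ P * (C c * u 1) := by
      linear_combination (-X 1) * hp0 - g1 * hp1 - g2 * hp2 + (u 1) * hq
    have k2 : QQ P * (p0 * X 2) = QQ P * (C c * u 2) := by
      linear_combination (-X 2) * hp0 + (u 2) * hq
    have k0' := mul_left_cancel₀ (QQ_ne_zero P) k0
    have k1' := mul_left_cancel₀ (QQ_ne_zero P) k1
    have k2' := mul_left_cancel₀ (QQ_ne_zero P) k2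
    funext i
    fin_cases i
    · simp
      linear_combination C c⁻¹ * k0' + (u 0) * hCc
    · simp
      linear_combination C c⁻¹ * k1' + (u 1) * hCc
    · simp
      linear_combination C c⁻¹ * k2' + (u 2) * hCc

end Pool.Agent.H327R3.Terao
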