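import Pool.Agent.H327R3.TeraoData

set_option autoImplicit false

/-!
# The counterexample to Terao's conjecture over `F_121`
-/

namespace Pool.Agent.H327R3.Terao

open MvPolynomial

variable {K : Type} [Field K] [CharP K 11]

/-- the first (free) arrangement -/
def PA (i : K) : Fin 27 → K × K := fun j => (val i (pz j).1.1, val i (pz j).1.2)

/-- the second (non-free) arrangement -/
def PB (i : K) : Fin 27 → K × K := fun j => (val i (pz j).2.1, val i (pz j).2.2)

theorem PA_inj (i : K) (hi : i * i = -1) : Function.Injective (PA i) := by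
  intro j k h
  have h1 : val i (subc (pz j).1.1 (pz k).1.1) = 0 := by
    rw [val_sub, sub_eq_zero]; exact congrArg Prod.fst h
  have h2 : val i (subc (pz j).1.2 (pz k).1.2) = 0 := by
    rw [val_sub, sub_eq_zero]; exact congrArg Prod.snd h
  exact injA j k ((val_eq_zero i hi _).1 h1) ((val_eq_zero i hi _).1 h2)

theorem PB_inj (i : K) (hi : i * i = -1) : Function.Injective (PB i) := by
  intro j k h
  have h1 : val i (subc (pz j).2.1 (pz k).2.1) = 0 := by
    rw [val_sub, sub_eq_zero]; exact congrArg Prod.fst h
  have h2 : val i (subc (pz j).2.2 (pz k).2.2) = 0 := by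
    rw [val_sub, sub_eq_zero]; exact congrArg Prod.snd h
  exact injB j k ((val_eq_zero i hi _).1 h1) ((val_eq_zero i hi _).1 h2)

theorem val_detc (i : K) (hi : i * i = -1) (p q r : Cd × Cd) :
    val i (detc p q r) =
      det3 (val i p.1, val i p.2) (val i q.1, val i q.2) (val i r.1, val i r.2) := by
  simp only [detc, det3, val_sub, val_mul i hi]

theorem det_same (i : K) (hi : i * i = -1) (j k m : Fin 27) :
    det3 (PA i j) (PA i k) (PA i m) = 0 ↔ det3 (PB i j) (PB i k) (PB i m) = 0 := by
  have h := checkCol_true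
  simp only [checkCol, List.all_eq_true] at h
  have h2 := h (pz j) (pz_mem j) (pz k) (pz_mem k) (pz m) (pz_mem m)
  rw [beq_iff_eq] at h2
  have e1 : det3 (PA i j) (PA i k) (PA i m) = val i (detc (pz j).1 (pz k).1 (pz m).1) :=
    (val_detc i hi _ _ _).symm
  have e2 : det3 (PB i j) (PB i k) (PB i m) = val i (detc (pz j).2 (pz k).2 (pz m).2) :=
    (val_detc i hi _ _ _).symm
  rw [e1, e2, val_eq_zero i hi, val_eq_zero i hi, h2]

theorem memA (i : K) (hi : i * i = -1) (F G : List (List Cd)) (hF : shape F = true)
    (hG : shape G = true) (h : (zl.all fun p => chkD F G p.1) = true) :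
    (![pol i F, pol i G, 0] : Fin 3 → MvPolynomial (Fin 3) K) ∈ Der (mat (PA i)) := by
  rw [mem_Der]
  intro j
  rw [List.all_eq_true] at h
  have := chkD_spec i hi F G hF hG (pz j).1 (h (pz j) (pz_mem j))
  simpa [PA] using this

theorem A_free (i : K) (hi : i * i = -1) :
    Module.Free (MvPolynomial (Fin 3) K) (Der (mat (PA i))) := by
  refine free_of (PA i) (PA_inj i hi) (pol i F1) (pol i G1) (pol i F2) (pol i G2) 13 (by norm_num)
    ((totalDegree_pol i F1 shape_F1).trans (by rw [length_F1]))
    ((totalDegree_pol i G1 shape_G1).trans (by rw [length_G1]))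
    ((totalDegree_pol i F2 shape_F2).trans (by rw [length_F2]))
    ((totalDegree_pol i G2 shape_G2).trans (by rw [length_G2]))
    (memA i hi F1 G1 shape_F1 shape_G1 check1) (memA i hi F2 G2 shape_F2 shape_G2 check2) ?_
  intro h
  have h2 := congrArg (MvPolynomial.eval (![val i (1, 0), val i (0, 1), 0] : Fin 3 → K)) h
  rw [map_sub, map_mul, map_mul, eval_pol, eval_pol, eval_pol, eval_pol, map_zero,
    ← evFc_spec i hi, ← evFc_spec i hi, ← evFc_spec i hi, ← evFc_spec i hi,
    ← val_mul i hi, ← val_mul i hi, ← val_sub, val_eq_zero i hi, check3] at h2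
  exact absurd h2 (by decide)

theorem nat_pow (m : ℕ) : ((m : K)) ^ 11 = (m : K) := by
  have : Fact (Nat.Prime 11) := ⟨by norm_num⟩
  have := map_natCast (frobenius K 11) m
  rwa [frobenius_def] at this

theorem B_not_free (i : K) (hi : i * i = -1) :
    ¬ Module.Free (MvPolynomial (Fin 3) K) (Der (mat (PB i))) := by
  classical
  have hinj : Function.Injective (fun m : Fin 12 => val i (tz m)) := by
    intro j k h
    apply injT
    rw [← val_eq_zero i hi, val_sub, sub_eq_zero]
    exact h
  refine not_free_of (PB i) ?_ i 0 ?_ (Finset.univ.image fun m : Fin 12 => val i (tz m)) ?_ ?_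
  · intro j
    obtain ⟨h1, h2⟩ := realB j
    simp only [PB, val, h1, h2, Nat.cast_zero, zero_mul, add_zero]
    exact ⟨nat_pow _, nat_pow _⟩
  · simp only [PB, zeroB, val_zero]
  · rw [Finset.card_image_of_injective _ hinj]
    simp
  · intro t ht
    rw [Finset.mem_image] at ht
    obtain ⟨m, _, rfl⟩ := ht
    obtain ⟨j, hj1, hj2⟩ := checkT m
    refine ⟨j, ?_, ?_⟩
    · intro h
      have h1 : val i (pz j).2.1 = 0 := congrArg Prod.fst h
      have h2 : val i (pz j).2.2 = 0 := congrArg Prod.snd h
      rw [val_eq_zero i hi] at h1 h2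
      rw [h1, h2] at hj1
      exact absurd hj1 (by decide)
    · rw [← val_eq_zero i hi, val_add, val_mul i hi, val_mul i hi, val_add, val_mul i hi] at hj2
      have e1 : val i (1, 0) = (1 : K) := by simp [val]
      have e2 : val i (0, 1) = i := by simp [val]
      rw [e1, e2] at hj2
      exact hj2

end Pool.Agent.H327R3.Terao
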