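import Pool.Agent.H327R3.TeraoBasic

set_option autoImplicit false

/-!
# A non-freeness criterion in characteristic 11
-/

namespace Pool.Agent.H327R3.Terao

open MvPolynomial

variable {K : Type} [Field K] {n : ℕ}

/-- The derivation `(x^11, y^11, z^11)`. -/
noncomputable def th11 : Fin 3 → MvPolynomial (Fin 3) K := fun i => X i ^ 11

/-- The Euler derivation. -/
noncomputable def eul : Fin 3 → MvPolynomial (Fin 3) K := fun i => X i

theorem eul_mem (P : Fin n → K × K) : eul ∈ Der (mat P) := by
  rw [mem_Der]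
  intro j
  simp [eul, frm]

theorem th11_mem [CharP K 11] (P : Fin n → K × K)
    (hF : ∀ j, (P j).1 ^ 11 = (P j).1 ∧ (P j).2 ^ 11 = (P j).2) : th11 ∈ Der (mat P) := by
  have : Fact (Nat.Prime 11) := ⟨by norm_num⟩
  rw [mem_Der]
  intro j
  have h : C (P j).1 * th11 0 + C (P j).2 * th11 1 + th11 2 = frm (P j) ^ 11 := by
    simp only [th11, frm]
    rw [add_pow_char, add_pow_char, mul_pow, mul_pow, ← C_pow, ← C_pow, (hF j).1, (hF j).2]
  rw [h]
  exact dvd_pow_self _ (by norm_num)

/-- product of the forms -/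
noncomputable def QQ (P : Fin n → K × K) : MvPolynomial (Fin 3) K := ∏ j, frm (P j)

theorem QQ_single_mem (P : Fin n → K × K) (v : Fin 3 → MvPolynomial (Fin 3) K) :
    QQ P • v ∈ Der (mat P) := by
  rw [mem_Der]
  intro j
  have : C (P j).1 * (QQ P • v) 0 + C (P j).2 * (QQ P • v) 1 + (QQ P • v) 2 =
      QQ P * (C (P j).1 * v 0 + C (P j).2 * v 1 + v 2) := by
    simp; ring
  rw [this]
  exact Dvd.dvd.mul_right (Finset.dvd_prod_of_mem _ (Finset.mem_univ j)) _

/-- restriction to the line `(0,0,T)` -/
noncomputable def psi : MvPolynomial (Fin 3) K →+* Polynomial K :=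
  (MvPolynomial.aeval (R := K) ![0, 0, Polynomial.X] : MvPolynomial (Fin 3) K →ₐ[K] Polynomial K).toRingHom

theorem psi_X0 : psi (K := K) (X 0) = 0 := by simp [psi]
theorem psi_X1 : psi (K := K) (X 1) = 0 := by simp [psi]
theorem psi_X2 : psi (K := K) (X 2) = Polynomial.X := by simp [psi]

theorem psi_coeff_zero (c : MvPolynomial (Fin 3) K) :
    (psi c).coeff 0 = constantCoeff c := by
  have : ((Polynomial.evalRingHom (0 : K)).comp (psi (K := K))) = constantCoeff := by
    apply MvPolynomial.ringHom_ext
    · intro a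
      simp [psi]
    · intro i
      fin_cases i <;> simp [psi]
  have h2 := congrArg (fun f => f c) this
  simp only [RingHom.comp_apply, Polynomial.coe_evalRingHom] at h2
  rw [Polynomial.coeff_zero_eq_eval_zero]
  exact h2

theorem psi_QQ (P : Fin n → K × K) : psi (QQ P) = Polynomial.X ^ n := by
  simp only [QQ, map_prod, frm, map_add, map_mul, psi_X0, psi_X1, psi_X2, mul_zero, zero_add]
  simp

theorem functional_const [CharP K 11] (P : Fin n → K × K)
    (hF : ∀ j, (P j).1 ^ 11 = (P j).1 ∧ (P j).2 ^ 11 = (P j).2)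
    (lam : Der (mat P) →ₗ[MvPolynomial (Fin 3) K] MvPolynomial (Fin 3) K) :
    constantCoeff (lam ⟨th11, th11_mem P hF⟩) = 0 := by
  classical
  set w : Fin 3 → MvPolynomial (Fin 3) K := fun i =>
    lam ⟨QQ P • (Pi.single i 1 : Fin 3 → MvPolynomial (Fin 3) K), QQ_single_mem P _⟩ with hw
  have key : ∀ (v : Fin 3 → MvPolynomial (Fin 3) K) (hv : v ∈ Der (mat P)),
      QQ P * lam ⟨v, hv⟩ = v 0 * w 0 + v 1 * w 1 + v 2 * w 2 := by
    intro v hv
    have e : QQ P • (⟨v, hv⟩ : Der (mat P)) =
        v 0 • (⟨QQ P • (Pi.single 0 1 : Fin 3 → MvPolynomial (Fin 3) K), QQ_single_mem P _⟩ : Der (mat P))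
        + v 1 • (⟨QQ P • (Pi.single 1 1 : Fin 3 → MvPolynomial (Fin 3) K), QQ_single_mem P _⟩ : Der (mat P))
        + v 2 • (⟨QQ P • (Pi.single 2 1 : Fin 3 → MvPolynomial (Fin 3) K), QQ_single_mem P _⟩ : Der (mat P)) := by
      apply Subtype.ext
      funext i
      fin_cases i <;> simp [mul_comm]
    have := congrArg lam e
    rw [map_smul, map_add, map_add, map_smul, map_smul, map_smul] at this
    simpa only [smul_eq_mul] using this
  have h1 := congrArg psi (key th11 (th11_mem P hF))
  have h2 := congrArg psi (key eul (eul_mem P))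
  simp only [map_add, map_mul, th11, eul, map_pow, psi_X0, psi_X1, psi_X2, psi_QQ] at h1 h2
  have hX : (Polynomial.X : Polynomial K) ^ n ≠ 0 := pow_ne_zero _ Polynomial.X_ne_zero
  have h3 : psi (lam ⟨th11, th11_mem P hF⟩) =
      Polynomial.X ^ 10 * psi (lam ⟨eul, eul_mem P⟩) := by
    apply mul_left_cancel₀ hX
    have h1' : Polynomial.X ^ n * psi (lam ⟨th11, th11_mem P hF⟩) = Polynomial.X ^ 11 * psi (w 2) := by
      have : (fun i => X i ^ 11 : Fin 3 → MvPolynomial (Fin 3) K) = th11 := rfl
      simpa [this] using h1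
    have h2' : Polynomial.X ^ n * psi (lam ⟨eul, eul_mem P⟩) = Polynomial.X * psi (w 2) := by
      have : (fun i => X i : Fin 3 → MvPolynomial (Fin 3) K) = eul := rfl
      simpa [this] using h2
    rw [h1']
    calc Polynomial.X ^ 11 * psi (w 2) = Polynomial.X ^ 10 * (Polynomial.X * psi (w 2)) := by ring
      _ = _ := by rw [← h2']; ring
  rw [← psi_coeff_zero, h3]
  simp

/-- restriction to the cone `s (T, 1 + w T, 0)` over the line `z = 0` -/
noncomputable def Phi (w : K) : MvPolynomial (Fin 3) K →+* Polynomial (Polynomial K) :=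
  MvPolynomial.eval₂Hom ((Polynomial.C).comp (Polynomial.C : K →+* Polynomial K))
    ![Polynomial.X * Polynomial.C Polynomial.X,
      Polynomial.X * Polynomial.C (1 + Polynomial.C w * Polynomial.X), 0]

theorem Phi_X0 (w : K) : Phi w (X 0) = Polynomial.X * Polynomial.C Polynomial.X := by simp [Phi]
theorem Phi_X1 (w : K) : Phi w (X 1) =
    Polynomial.X * Polynomial.C (1 + Polynomial.C w * Polynomial.X) := by simp [Phi]
theorem Phi_X2 (w : K) : Phi w (X 2) = 0 := by simp [Phi]
theorem Phi_C (w a : K) : Phi w (C a) = Polynomial.C (Polynomial.C a) := by simp [Phi]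

/-- The degree condition `deg_T (coeff of s^k) ≤ k`. -/
def Slope (p : Polynomial (Polynomial K)) : Prop := ∀ k, (p.coeff k).natDegree ≤ k

theorem Slope.add {p q : Polynomial (Polynomial K)} (hp : Slope p) (hq : Slope q) :
    Slope (p + q) := by
  intro k
  rw [Polynomial.coeff_add]
  exact (Polynomial.natDegree_add_le _ _).trans (max_le (hp k) (hq k))

theorem Slope.neg {p : Polynomial (Polynomial K)} (hp : Slope p) : Slope (-p) := by
  intro k
  rw [Polynomial.coeff_neg, Polynomial.natDegree_neg]
  exact hp k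

theorem Slope.mul {p q : Polynomial (Polynomial K)} (hp : Slope p) (hq : Slope q) :
    Slope (p * q) := by
  intro k
  rw [Polynomial.coeff_mul]
  apply Polynomial.natDegree_sum_le_of_forall_le
  intro x hx
  have hx := Finset.HasAntidiagonal.mem_antidiagonal.1 hx
  exact Polynomial.natDegree_mul_le.trans (by
    have := hp x.1
    have := hq x.2
    omega)

theorem Slope.XC {a : Polynomial K} (ha : a.natDegree ≤ 1) :
    Slope (Polynomial.X * Polynomial.C a) := by
  intro k
  rcases k with _ | k
  · simp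
  · rw [Polynomial.coeff_X_mul, Polynomial.coeff_C]
    split_ifs with h
    · omega
    · simp

theorem Slope_Phi (w : K) (q : MvPolynomial (Fin 3) K) : Slope (Phi w q) := by
  induction q using MvPolynomial.induction_on with
  | C a =>
    rw [Phi_C]
    intro k
    rw [Polynomial.coeff_C]
    split_ifs <;> simp
  | add p q hp hq =>
    rw [map_add]
    exact hp.add hq
  | mul_X p i hp =>
    rw [map_mul]
    refine hp.mul ?_
    fin_cases i
    · show Slope (Phi w (X 0))
      rw [Phi_X0]
      exact Slope.XC Polynomial.natDegree_X_le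
    · show Slope (Phi w (X 1))
      rw [Phi_X1]
      apply Slope.XC
      refine (Polynomial.natDegree_add_le _ _).trans (max_le (by simp) ?_)
      exact (Polynomial.natDegree_C_mul_le _ _).trans Polynomial.natDegree_X_le
    · show Slope (Phi w (X 2))
      rw [Phi_X2]
      intro k
      simp

/-- The form `x η_y - y η_x` on the cone. -/
noncomputable def FF (w : K) (v : Fin 3 → MvPolynomial (Fin 3) K) : Polynomial (Polynomial K) :=
  Phi w (X 0) * Phi w (v 1) + -(Phi w (X 1) * Phi w (v 0))

theorem FF_add (w : K) (u v : Fin 3 → MvPolynomial (Fin 3) K) :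
    FF w (u + v) = FF w u + FF w v := by
  simp [FF]; ring

theorem FF_smul (w : K) (c : MvPolynomial (Fin 3) K) (v : Fin 3 → MvPolynomial (Fin 3) K) :
    FF w (c • v) = Phi w c * FF w v := by
  simp [FF]; ring

theorem X12_dvd_FF (P : Fin n → K × K) (w : K) (i0 : Fin n) (h0 : P i0 = (0, 0))
    (T : Finset K) (hT : T.card = 12)
    (hTd : ∀ t ∈ T, ∃ j, P j ≠ (0, 0) ∧ (P j).1 * t + (P j).2 * (1 + w * t) = 0)
    (v : Fin 3 → MvPolynomial (Fin 3) K) (hv : v ∈ Der (mat P)) :
    Polynomial.X ^ 12 ∣ FF w v := by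
  have hslope : Slope (FF w v) :=
    ((Slope_Phi w _).mul (Slope_Phi w _)).add ((Slope_Phi w _).mul (Slope_Phi w _)).neg
  rw [mem_Der] at hv
  have hz : X 2 ∣ v 2 := by
    have := hv i0
    rw [h0] at this
    simpa [frm] using this
  rw [Polynomial.X_pow_dvd_iff]
  intro d hd
  apply Polynomial.eq_zero_of_natDegree_lt_card_of_eval_eq_zero' _ T
  · intro t ht
    obtain ⟨j, hj0, hj⟩ := hTd t ht
    obtain ⟨q, hq⟩ := hv j
    set M : Polynomial (Polynomial K) →+* Polynomial K :=
      Polynomial.mapRingHom (Polynomial.evalRingHom t) with hM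
    have hMF : M (FF w v) = 0 := by
      have e1 := congrArg (fun p => M (Phi w p)) hq
      obtain ⟨q2, hq2⟩ := hz
      have e2 : M (Phi w (v 2)) = 0 := by
        rw [hq2, map_mul, Phi_X2, zero_mul, map_zero]
      have eX0 : M (Phi w (X 0)) = Polynomial.X * Polynomial.C t := by
        rw [Phi_X0]; simp [hM]
      obtain ⟨py, hpy⟩ : ∃ py, py = Polynomial.X * Polynomial.C (1 + w * t) := ⟨_, rfl⟩
      have eX1 : M (Phi w (X 1)) = py := by
        rw [Phi_X1, hpy]; simp [hM]
      have eC : ∀ a : K, M (Phi w (C a)) = Polynomial.C a := by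
        intro a; rw [Phi_C]; simp [hM]
      have eX2 : M (Phi w (X 2)) = 0 := by rw [Phi_X2, map_zero]
      simp only [frm, map_add, map_mul, eX0, eX1, eX2, eC, e2, add_zero] at e1
      have e3 : Polynomial.C (P j).1 * (Polynomial.X * Polynomial.C t) +
          Polynomial.C (P j).2 * py = 0 := by
        rw [hpy]
        have : Polynomial.C (P j).1 * (Polynomial.X * Polynomial.C t) +
          Polynomial.C (P j).2 * (Polynomial.X * Polynomial.C (1 + w * t)) =
          Polynomial.X * Polynomial.C ((P j).1 * t + (P j).2 * (1 + w * t)) := by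
            simp only [map_add, map_mul]; ring
        rw [this, hj]; simp
      rw [e3, zero_mul] at e1
      simp only [FF, map_add, map_neg, map_mul, eX0, eX1]
      set e := M (Phi w (v 0)) with he
      set f := M (Phi w (v 1)) with hf
      by_cases ha : (P j).1 = 0
      · have hb : (P j).2 ≠ 0 := fun hb => hj0 (Prod.ext ha hb)
        have hb' : Polynomial.C (P j).2 ≠ 0 := by simpa using hb
        apply mul_left_cancel₀ hb'
        rw [mul_zero]
        linear_combination (Polynomial.X * Polynomial.C t) * e1 - e * e3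
      · have ha' : Polynomial.C (P j).1 ≠ 0 := by simpa using ha
        apply mul_left_cancel₀ ha'
        rw [mul_zero]
        linear_combination (-py) * e1 + f * e3
    have h4 := congrArg (fun p => p.coeff d) hMF
    simpa [hM, Polynomial.coeff_map] using h4
  · rw [hT]
    exact (hslope d).trans_lt hd

theorem Phi_coeff_zero (w : K) (c : MvPolynomial (Fin 3) K) (hc : constantCoeff c = 0) :
    Polynomial.X ∣ Phi w c := by
  rw [Polynomial.X_dvd_iff, Polynomial.coeff_zero_eq_eval_zero]
  have : ((Polynomial.evalRingHom (0 : Polynomial K)).comp (Phi w)) =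
      (Polynomial.C : K →+* Polynomial K).comp constantCoeff := by
    apply MvPolynomial.ringHom_ext
    · intro a
      simp [Phi]
    · intro i
      fin_cases i <;> simp [Phi]
  have h2 := congrArg (fun f => f c) this
  simp only [RingHom.comp_apply, Polynomial.coe_evalRingHom, hc, map_zero] at h2
  exact h2

theorem FF_th11 [CharP K 11] (w : K) : ¬ Polynomial.X ^ 13 ∣ FF w th11 := by
  have : Fact (Nat.Prime 11) := ⟨by norm_num⟩
  intro h
  rw [Polynomial.X_pow_dvd_iff] at h
  have h12 := h 12 (by norm_num)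
  have e : FF w th11 = Polynomial.X ^ 12 *
      Polynomial.C ((Polynomial.X : Polynomial K) * (1 + Polynomial.C w * Polynomial.X) ^ 11
        + -((1 + Polynomial.C w * Polynomial.X) * Polynomial.X ^ 11)) := by
    simp only [FF, th11, map_pow, Phi_X0, Phi_X1, map_add, map_mul, map_neg]
    ring
  rw [e, Polynomial.coeff_X_pow_mul', if_pos le_rfl, Nat.sub_self, Polynomial.coeff_C_zero] at h12
  have h13 := congrArg (fun p => Polynomial.coeff p 1) h12
  rw [add_pow_char, one_pow, mul_pow] at h13
  have e2 : (Polynomial.X : Polynomial K) * (1 + Polynomial.C w ^ 11 * Polynomial.X ^ 11) +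
      -((1 + Polynomial.C w * Polynomial.X) * Polynomial.X ^ 11) =
      Polynomial.X + (Polynomial.C (w ^ 11) * Polynomial.X ^ 12 - Polynomial.X ^ 11 -
        Polynomial.C w * Polynomial.X ^ 12) := by
    simp only [map_pow]; ring
  simp only [e2] at h13
  generalize w ^ 11 = W at h13
  simp [Polynomial.coeff_X_pow, Polynomial.coeff_C_mul] at h13

theorem not_free_of [CharP K 11] (P : Fin n → K × K)
    (hF : ∀ j, (P j).1 ^ 11 = (P j).1 ∧ (P j).2 ^ 11 = (P j).2)
    (w : K) (i0 : Fin n) (h0 : P i0 = (0, 0))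
    (T : Finset K) (hT : T.card = 12)
    (hTd : ∀ t ∈ T, ∃ j, P j ≠ (0, 0) ∧ (P j).1 * t + (P j).2 * (1 + w * t) = 0) :
    ¬ Module.Free (MvPolynomial (Fin 3) K) (Der (mat P)) := by
  intro hfree
  let b := Module.Free.chooseBasis (MvPolynomial (Fin 3) K) (Der (mat P))
  set x : Der (mat P) := ⟨th11, th11_mem P hF⟩ with hx
  apply FF_th11 (K := K) w
  have hsum := b.linearCombination_repr x
  rw [Finsupp.linearCombination_apply, Finsupp.sum] at hsum
  let FL : Der (mat P) →+ Polynomial (Polynomial K) :=
    { toFun := fun v => FF w v.1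
      map_zero' := by simp [FF]
      map_add' := fun u v => FF_add w u.1 v.1 }
  have h1 : FF w th11 = ∑ i ∈ (b.repr x).support, FL ((b.repr x) i • b i) := by
    rw [← map_sum, hsum]
    rfl
  rw [h1]
  apply Finset.dvd_sum
  intro i _
  have h2 : FL ((b.repr x) i • b i) = Phi w ((b.repr x) i) * FF w (b i).1 := FF_smul w _ _
  rw [h2, pow_succ']
  apply mul_dvd_mul
  · apply Phi_coeff_zero
    exact functional_const P hF (b.coord i)
  · exact X12_dvd_FF P w i0 h0 T hT hTd _ (b i).2

end Pool.Agent.H327R3.Terao
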